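import Pool.Agent.Run7.h197.V.Core
import Pool.Agent.Run7.h197.N.Near

/-!
Parameters which are close to a point of small height and for which the pole orders of a rational
function are almost divisible by `n`.
-/

set_option autoImplicit false

namespace Run7.h197.V

open NumberField IsDedekindDomain Finset Pool.Agent.H691R3 Pool.Agent.Y673.Loc Pool.Agent.Y673.Cnt
open Run7.h197.ST Height Pool.Agent.H951R3.V Run7.h197.Q Pool.Agent.Y673.Loc.ZV
open Pool.Agent.K4H56.IF Run7.h197.FMS Run7.h197.N Polynomial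

lemma common {ι : Type} (s : Finset ι) (Q : ι → ℕ → ℕ → Prop) (h : ∀ i ∈ s, ∃ κ g, Q i κ g)
    (mono : ∀ i κ g κ' g', κ ≤ κ' → g ≤ g' → Q i κ g → Q i κ' g') :
    ∃ κ g, ∀ i ∈ s, Q i κ g := by
  classical
  induction s using Finset.induction_on with
  | empty => exact ⟨0, 0, by simp⟩
  | insert a s ha ih =>
    obtain ⟨κ₁, g₁, h1⟩ := ih fun i hi => h i (Finset.mem_insert_of_mem hi)
    obtain ⟨κ₂, g₂, h2⟩ := h a (Finset.mem_insert_self a s)
    refine ⟨max κ₁ κ₂, max g₁ g₂, fun i hi => ?_⟩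
    rcases Finset.mem_insert.1 hi with rfl | hi
    · exact mono _ _ _ _ _ (le_max_right _ _) (le_max_right _ _) h2
    · exact mono _ _ _ _ _ (le_max_left _ _) (le_max_left _ _) (h1 i hi)

section
variable {K : Type} [Field K] [NumberField K]

/-- near a pole at infinity -/
theorem pole_inf (F G : K[X]) (hG : G ≠ 0) (hd : G.natDegree < F.natDegree) :
    ∃ S : Set (HeightOneSpectrum (𝓞 K)), S.Finite ∧ ∀ v ∉ S, ∀ t : K, (adv K v).v t < 0 →
      (adv K v).v (F.eval t / G.eval t) =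
        -(((F.natDegree - G.natDegree : ℕ) : ℤ) * -(adv K v).v t) := by
  have hF : F ≠ 0 := by
    rintro rfl
    simp at hd
  have key : ∀ P : K[X], P ≠ 0 → ∃ S : Set (HeightOneSpectrum (𝓞 K)), S.Finite ∧ ∀ v ∉ S, ∀ t : K,
      t ≠ 0 → (adv K v).v t < 0 → (adv K v).E (P.natDegree * (adv K v).v t) (P.eval t) := by
    intro P hP
    have hl : P.leadingCoeff ≠ 0 := leadingCoeff_ne_zero.2 hP
    refine ⟨{v | (adv K v).v P.leadingCoeff ≠ 0} ∪ ⋃ i ∈ P.support, {v | ¬ (adv K v).G 0 (P.coeff i)},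
      (supp_finite hl).union (Set.Finite.biUnion P.support.finite_toSet fun i _ => pole_finite _), ?_⟩
    intro v hv t ht0 ht
    simp only [Set.mem_union, Set.mem_iUnion, Set.mem_ofPred_eq, not_or, not_exists, not_not] at hv
    refine Pool.Agent.Y673.DK.inf_poly P (fun i => ?_) ⟨hl, hv.1⟩ ht0 ht
    by_cases hi : i ∈ P.support
    · exact hv.2 i hi
    · left
      exact notMem_support_iff.1 hi
  obtain ⟨S₁, f₁, h₁⟩ := key F hF
  obtain ⟨S₂, f₂, h₂⟩ := key G hG
  refine ⟨S₁ ∪ S₂, f₁.union f₂, ?_⟩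
  intro v hv t ht
  rw [Set.mem_union, not_or] at hv
  have ht0 : t ≠ 0 := by
    rintro rfl
    rw [adv_zero] at ht
    exact lt_irrefl _ ht
  rw [((h₁ v hv.1 t ht0 ht).div (h₂ v hv.2 t ht0 ht)).2, Nat.cast_sub hd.le]
  ring

/-- order at a point -/
noncomputable def ordP (v : HeightOneSpectrum (𝓞 K)) (c : Option K) (t : K) : ℤ :=
  c.elim (-(adv K v).v t) fun γ => (adv K v).v (t - γ)

lemma posP_iff (S : Set (HeightOneSpectrum (𝓞 K))) (n m N e : ℕ) (c : Option K) (t : K) :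
    PosP S n m N e c t ↔ ∀ v ∉ S, (adv K v).v (N : K) = 0 → 0 < ordP v c t →
      ∃ r : ℤ, |r| ≤ (adv K v).v (m : K) ∧ (n : ℤ) ∣ (e : ℤ) * ordP v c t + r := by
  rcases c with _ | γ
  · constructor
    · intro h v hv hN hpos
      have h1 : 0 < -(adv K v).v t := hpos
      exact h v hv hN (by omega)
    · intro h v hv hN hneg
      exact h v hv hN (show 0 < -(adv K v).v t by omega)
  · exact Iff.rfl

/-- the order of the pole -/
noncomputable def mlt (F G : K[X]) (c : Option K) : ℕ :=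
  c.elim (F.natDegree - G.natDegree) fun γ => G.rootMultiplicity γ

/-- poles over the field -/
def PoleK (F G : K[X]) (c : Option K) : Prop :=
  c.elim (G.natDegree < F.natDegree) fun γ => G.eval γ = 0

lemma mlt_pos (F G : K[X]) (hG : G ≠ 0) (c : Option K) (hc : PoleK F G c) : 0 < mlt F G c := by
  rcases c with _ | γ
  · have h : G.natDegree < F.natDegree := hc
    show 0 < F.natDegree - G.natDegree
    omega
  · exact (rootMultiplicity_pos hG).2 hc

lemma pole_ord (F G : K[X]) (hcop : IsCoprime F G) (hG : G ≠ 0) (c : Option K) (hc : PoleK F G c) :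
    ∃ S : Set (HeightOneSpectrum (𝓞 K)), S.Finite ∧ ∀ v ∉ S, ∀ t : K, G.eval t ≠ 0 →
      0 < ordP v c t → (adv K v).v (F.eval t / G.eval t) = -((mlt F G c : ℤ) * ordP v c t) := by
  rcases c with _ | γ
  · obtain ⟨S, f, h⟩ := pole_inf F G hG hc
    refine ⟨S, f, fun v hv t _ hpos => ?_⟩
    have h1 : 0 < -(adv K v).v t := hpos
    exact h v hv t (by omega)
  · obtain ⟨S, f, h⟩ := pole_val F G hG hcop hc
    exact ⟨S, f, fun v hv t ht hpos => (h v hv t ht hpos).2⟩

/-- the condition on the orders of the poles -/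
def PoleV (S : Set (HeightOneSpectrum (𝓞 K))) (n m N B : ℕ) (j : K) : Prop :=
  ∀ v ∉ S, (adv K v).v (N : K) = 0 → (adv K v).v j < 0 →
    ∃ r : ℤ, |r| ≤ (adv K v).v (m : K) ∧ (n : ℤ) ∣ (B : ℤ) * (adv K v).v j + r

/-- **over the splitting field** -/
theorem paramK (F G : K[X]) (hcop : IsCoprime F G) (hG : G ≠ 0)
    (S : Set (HeightOneSpectrum (𝓞 K))) (hS : S.Finite) (M B s : ℕ) (hB : 1 ≤ B) :
    ∃ κ g₀ μ : ℕ, ∀ g n m N : ℕ, g₀ < g → g ^ κ ≤ n → m ≠ 0 → N ≠ 0 → m ^ μ ≤ 2 ^ g →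
      N ≤ 2 ^ g → N.primeFactors.card ≤ s → ∀ (t : K) (a b c : Option K) (φ : K →+* ℂ),
      b ≠ c → b ≠ a → c ≠ a → PoleK F G b → PoleK F G c →
      hp a ≤ 2 ^ g → NearT φ M t a → (2 : ℝ) ^ (g ^ κ) ≤ mulHeight₁ t → G.eval t ≠ 0 →
      PoleV S n m N B (F.eval t / G.eval t) → False := by
  classical
  -- the pairs
  let P : Finset (Option K) := insert none ((G.roots.toFinset).image some)
  have hP : ∀ c, PoleK F G c → c ∈ P := by
    intro c hc
    rcases c with _ | γ
    · exact Finset.mem_insert_self _ _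
    · apply Finset.mem_insert_of_mem
      apply Finset.mem_image_of_mem
      rw [Multiset.mem_toFinset]
      exact (mem_roots hG).2 hc
  obtain ⟨μ, hμ⟩ : ∃ μ, μ = ∑ c ∈ P, mlt F G c := ⟨_, rfl⟩
  have hμc : ∀ c, PoleK F G c → mlt F G c ≤ μ := by
    intro c hc
    rw [hμ]
    exact Finset.single_le_sum (f := fun c => mlt F G c) (fun _ _ => Nat.zero_le _) (hP c hc)
  obtain ⟨κ, g₀, hall⟩ := common (P ×ˢ P)
    (fun i κ g₀ => ∀ β : K, i.1 = some β → i.2 ≠ i.1 → PoleK F G i.1 → PoleK F G i.2 →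
      ∀ g n m N : ℕ, g₀ < g → g ^ κ ≤ n → m ≠ 0 → N ≠ 0 → m ^ μ ≤ 2 ^ g →
      N ≤ 2 ^ g → N.primeFactors.card ≤ s → ∀ (t : K) (a : Option K) (φ : K →+* ℂ), a ≠ i.1 →
      a ≠ i.2 → hp a ≤ 2 ^ g → NearT φ M t a → (2 : ℝ) ^ (g ^ κ) ≤ mulHeight₁ t → G.eval t ≠ 0 →
      PoleV S n m N B (F.eval t / G.eval t) → False)
    (by
      rintro ⟨b, c⟩ -
      rcases b with _ | β
      · exact ⟨0, 0, fun β h => by simp at h⟩
      by_cases hcb : c ≠ some β ∧ PoleK F G (some β) ∧ PoleK F G c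
      swap
      · exact ⟨0, 0, fun β' h h1 h2 h3 => absurd ⟨h1, h2, h3⟩ hcb⟩
      obtain ⟨hcb, hb, hc⟩ := hcb
      obtain ⟨S₁, f₁, h₁⟩ := pole_ord F G hcop hG (some β) hb
      obtain ⟨S₂, f₂, h₂⟩ := pole_ord F G hcop hG c hc
      have e1 := mlt_pos F G hG _ hb
      have e2 := mlt_pos F G hG _ hc
      obtain ⟨κ, g₀, hmain⟩ := targets_all (S ∪ S₁ ∪ S₂) ((hS.union f₁).union f₂) β c hcb M
        (B * mlt F G (some β) * mlt F G c) s (Nat.mul_pos (Nat.mul_pos hB e1) e2)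
      refine ⟨κ, g₀, ?_⟩
      rintro β' hβ' - - - g n m N hg hgn hm hN hmg hNg hNs t a φ hab hac hag hnear hH hGt hV
      have hmK : (m : K) ≠ 0 := Nat.cast_ne_zero.2 hm
      have hmv : ∀ v : HeightOneSpectrum (𝓞 K), (adv K v).v ((m ^ μ : ℕ) : K) = μ * (adv K v).v (m : K) := by
        intro v
        rw [Nat.cast_pow]
        exact ((E_of_ne (w := adv K v) hmK).pow μ).2
      have conv : ∀ (x y : Option K), PoleK F G y → ∀ v ∉ S, (adv K v).v (N : K) = 0 →
          0 < ordP v x t →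
          (adv K v).v (F.eval t / G.eval t) = -((mlt F G x : ℤ) * ordP v x t) → 0 < mlt F G x →
          ∃ r : ℤ, |r| ≤ (adv K v).v ((m ^ μ : ℕ) : K) ∧
            (n : ℤ) ∣ ((B * mlt F G x * mlt F G y : ℕ) : ℤ) * ordP v x t + r := by
        intro x y hy v hv hN0 hpos hval hmx
        have hneg : (adv K v).v (F.eval t / G.eval t) < 0 := by
          rw [hval]
          have : 0 < (mlt F G x : ℤ) * ordP v x t := mul_pos (by exact_mod_cast hmx) hpos
          omega
        obtain ⟨r, hr1, hr2⟩ := hV v hv hN0 hneg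
        rw [hval] at hr2
        refine ⟨-((mlt F G y : ℤ) * r), ?_, ?_⟩
        · rw [hmv, abs_neg, abs_mul, Nat.abs_cast]
          have h1 : (mlt F G y : ℤ) ≤ μ := by exact_mod_cast hμc y hy
          exact mul_le_mul h1 hr1 (abs_nonneg _) (by positivity)
        · have h1 := Dvd.dvd.mul_left hr2 (-(mlt F G y : ℤ))
          have h2 : -(mlt F G y : ℤ) * ((B : ℤ) * -((mlt F G x : ℤ) * ordP v x t) + r) =
              ((B * mlt F G x * mlt F G y : ℕ) : ℤ) * ordP v x t + -((mlt F G y : ℤ) * r) := by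
            push_cast
            ring
          rwa [h2] at h1
      have htβ : t ≠ β := fun h => hGt (by rw [h]; exact hb)
      have htc : some t ≠ c := by
        rintro rfl
        exact hGt hc
      refine hmain g n (m ^ μ) N hg.le hgn (pow_ne_zero _ hm) hN hmg hNg hNs t a φ hab hac hag hnear hH
        htβ htc ?_ ?_
      · intro v hv hN0 hpos
        simp only [Set.mem_union, not_or] at hv
        exact conv (some β) c hc v hv.1.1 hN0 hpos (h₁ v hv.1.2 t hGt hpos) e1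
      · rw [posP_iff]
        intro v hv hN0 hpos
        simp only [Set.mem_union, not_or] at hv
        obtain ⟨r, hr1, hr2⟩ := conv c (some β) hb v hv.1.1 hN0 hpos (h₂ v hv.2 t hGt hpos) e2
        refine ⟨r, hr1, ?_⟩
        have h3 : B * mlt F G (some β) * mlt F G c = B * mlt F G c * mlt F G (some β) := by ring
        rw [h3]
        exact hr2)
    (by
      intro i κ g κ' g' hκ hg h β h1 h2 h3 h4 g'' n m N hg'' hgn hm hN hmg hNg hNs t a φ hab hac hag
        hnear hH hGt hV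
      have h5 : g'' ^ κ ≤ g'' ^ κ' := Nat.pow_le_pow_right (by omega) hκ
      exact h β h1 h2 h3 h4 g'' n m N (by omega) (h5.trans hgn) hm hN hmg hNg hNs t a φ hab hac hag
        hnear ((pow_le_pow_right₀ (by norm_num) h5).trans hH) hGt hV)
  refine ⟨κ, g₀, μ, ?_⟩
  intro g n m N hg hgn hm hN hmg hNg hNs t a b c φ hbc hba hca hb hc hag hnear hH hGt hV
  rcases b with _ | β
  · rcases c with _ | γ
    · exact hbc rfl
    · exact hall (some γ, none) (Finset.mem_product.2 ⟨hP _ hc, hP _ hb⟩) γ rfl hbc hc hb g n m N hg hgn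
        hm hN hmg hNg hNs t a φ hca.symm hba.symm hag hnear hH hGt hV
  · exact hall (some β, c) (Finset.mem_product.2 ⟨hP _ hb, hP _ hc⟩) β rfl hbc.symm hb hc g n m N hg hgn
      hm hN hmg hNg hNs t a φ hba.symm hca.symm hag hnear hH hGt hV

end

section ext
variable {K : Type} [Field K] [NumberField K]

/-- close to the image of a point of an extension -/
def NearL {L : Type} [Field L] [NumberField L] [Algebra K L] (ψ : L →+* ℂ) (M : ℕ) (t : K) :
    Option L → Prop
  | none => mulHeight₁ t ≤ ‖ψ (algebraMap K L t)‖ ^ M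
  | some a => mulHeight₁ t * ‖ψ (algebraMap K L t) - ψ a‖ ^ M ≤ 1

lemma hp_map {L E : Type} [Field L] [NumberField L] [Field E] [NumberField E] [Algebra L E]
    (a : Option L) : hp (a.map (algebraMap L E)) = hp a ^ Module.finrank L E := by
  rcases a with _ | α
  · show (1 : ℝ) = 1 ^ _
    rw [one_pow]
  · exact mulHeight₁_ext E α

/-- **the main theorem for the orders of poles** -/
theorem paramV (F G : K[X]) (hcop : IsCoprime F G) (hG : G ≠ 0) (L : Type) [Field L]
    [NumberField L] [Algebra K L] (S : Set (HeightOneSpectrum (𝓞 K))) (hS : S.Finite) (M B s : ℕ)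
    (hB : 1 ≤ B) :
    ∃ κ g₀ : ℕ, ∀ g n m N : ℕ, g₀ ≤ g → g ^ κ ≤ n → m ≠ 0 → N ≠ 0 → m ≤ 2 ^ g →
      N ≤ 2 ^ g → N.primeFactors.card ≤ s → ∀ (t : K) (a : Option L) (ψ : L →+* ℂ),
      TwoPoles F G (ψ.comp (algebraMap K L)) (a.map ψ) →
      hp a ≤ 2 ^ g → NearL ψ M t a → (2 : ℝ) ^ (g ^ κ) ≤ mulHeight₁ t → G.eval t ≠ 0 →
      PoleV S n m N B (F.eval t / G.eval t) → False := by
  classical
  obtain ⟨G₁, hG₁⟩ : ∃ G₁, G₁ = G.map (algebraMap K L) := ⟨_, rfl⟩
  have hG₁0 : G₁ ≠ 0 := by rw [hG₁]; exact Polynomial.map_ne_zero hG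
  let E := SplittingField G₁
  have : NumberField E := NumberField.of_module_finite L E
  have hKE : ∀ x : K, algebraMap K E x = algebraMap L E (algebraMap K L x) := fun x =>
    IsScalarTower.algebraMap_apply K L E x
  obtain ⟨φ, hφ⟩ : ∃ φ : K →+* E, φ = algebraMap K E := ⟨_, rfl⟩
  have hφc : φ = (algebraMap L E).comp (algebraMap K L) := by
    rw [hφ]
    exact RingHom.ext hKE
  have hGφ : G.map φ = G₁.map (algebraMap L E) := by
    refine Eq.trans ?_ (congrArg (Polynomial.map (algebraMap L E)) hG₁).symm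
    rw [Polynomial.map_map, hφc]
  have hs : (G.map φ).Splits := by rw [hGφ]; exact SplittingField.splits G₁
  have hGm : G.map φ ≠ 0 := Polynomial.map_ne_zero hG
  obtain ⟨T, hT, hTv⟩ := above_finite E S hS
  obtain ⟨d, hd⟩ : ∃ d, d = Module.finrank K E := ⟨_, rfl⟩
  obtain ⟨d', hd'⟩ : ∃ d', d' = Module.finrank L E := ⟨_, rfl⟩
  obtain ⟨κ, g₀, μ, hmain⟩ := paramK (F.map φ) (G.map φ) (hcop.map (mapRingHom φ)) hGm T hT
    (M * d) B s hB
  obtain ⟨Q, hQ⟩ : ∃ Q, Q = μ + d' + 1 := ⟨_, rfl⟩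
  refine ⟨κ + 1, g₀ + Q ^ κ + 1, ?_⟩
  intro g n m N hg hgn hm hN hmg hNg hNs t a ψ htwo hag hnear hH hGt hV
  obtain ⟨g', hg'⟩ : ∃ g', g' = Q * g := ⟨_, rfl⟩
  have hg1 : 1 ≤ g := by omega
  have hgg' : g ≤ g' := by rw [hg']; exact Nat.le_mul_of_pos_left _ (by omega)
  have hpow : g' ^ κ ≤ g ^ (κ + 1) := by
    rw [hg', mul_pow, pow_succ, mul_comm]
    exact Nat.mul_le_mul_left _ (by omega)
  -- the embedding
  let _ : Algebra L ℂ := ψ.toAlgebra
  let ψ' : E →ₐ[L] ℂ := IsAlgClosed.lift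
  have hψ' : ∀ x : L, ψ' (algebraMap L E x) = ψ x := fun x => ψ'.commutes x
  have hψK : ∀ x : K, ψ' (φ x) = ψ (algebraMap K L x) := fun x => by rw [hφ, hKE, hψ']
  have hcomp : (ψ'.toRingHom).comp φ = ψ.comp (algebraMap K L) := RingHom.ext hψK
  -- the poles
  have hlift : ∀ z : Option ℂ, Pole F G (ψ.comp (algebraMap K L)) z →
      ∃ b : Option E, b.map ψ' = z ∧ PoleK (F.map φ) (G.map φ) b := by
    intro z hz
    rcases z with _ | z
    · refine ⟨none, rfl, ?_⟩
      show (G.map φ).natDegree < (F.map φ).natDegree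
      rw [natDegree_map, natDegree_map]
      exact hz
    · have hz' : ((G.map φ).map ψ'.toRingHom).eval z = 0 := by
        rw [Polynomial.map_map, hcomp]
        exact hz
      have h1 := hs.roots_map ψ'.toRingHom
      have h2 : z ∈ ((G.map φ).map ψ'.toRingHom).roots :=
        (mem_roots (Polynomial.map_ne_zero hGm)).2 hz'
      rw [h1, Multiset.mem_map] at h2
      obtain ⟨β, hβ, hβz⟩ := h2
      refine ⟨some β, ?_, (mem_roots hGm).1 hβ⟩
      rw [Option.map_some, ← hβz]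
      rfl
  obtain ⟨z₁, z₂, h12, h1a, h2a, hz1, hz2⟩ := htwo
  obtain ⟨b, hbz, hb⟩ := hlift z₁ hz1
  obtain ⟨c, hcz, hc⟩ := hlift z₂ hz2
  have haψ : (a.map (algebraMap L E)).map ψ' = a.map ψ := by
    rw [Option.map_map]
    congr 1
    funext x
    exact hψ' x
  have hbc : b ≠ c := by
    rintro rfl
    exact h12 (hbz.symm.trans hcz)
  have hba : b ≠ a.map (algebraMap L E) := by
    rintro rfl
    exact h1a (hbz.symm.trans haψ)
  have hca : c ≠ a.map (algebraMap L E) := by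
    rintro rfl
    exact h2a (hcz.symm.trans haψ)
  have e1 : (G.map φ).eval (φ t) = φ (G.eval t) := eval_map_apply _ _
  have e2 : (F.map φ).eval (φ t) = φ (F.eval t) := eval_map_apply _ _
  have hHt : mulHeight₁ (φ t) = mulHeight₁ t ^ d := by rw [hφ, hd]; exact mulHeight₁_ext E t
  have hd1 : 1 ≤ d := by rw [hd]; exact Module.finrank_pos
  have hH1 : 1 ≤ mulHeight₁ t := one_le_mulHeight₁ t
  refine hmain g' n m N (by omega) (hpow.trans hgn) hm hN ?_ (hNg.trans (Nat.pow_le_pow_right (by norm_num) hgg'))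
    hNs (φ t) (a.map (algebraMap L E)) b c ψ'.toRingHom hbc hba hca hb hc ?_ ?_ ?_ ?_ ?_
  · calc m ^ μ ≤ (2 ^ g) ^ μ := Nat.pow_le_pow_left hmg _
      _ = 2 ^ (g * μ) := by rw [← pow_mul]
      _ ≤ 2 ^ g' := by
          apply Nat.pow_le_pow_right (by norm_num)
          rw [hg', mul_comm]
          exact Nat.mul_le_mul_right _ (by omega)
  · rw [hp_map, ← hd']
    have h0 : 0 ≤ hp a := by
      rcases a with _ | α
      · exact zero_le_one
      · exact mulHeight₁_nonneg _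
    calc hp a ^ d' ≤ (2 ^ g) ^ d' := pow_le_pow_left₀ h0 hag _
      _ = 2 ^ (g * d') := by rw [← pow_mul]
      _ ≤ 2 ^ g' := by
          apply pow_le_pow_right₀ (by norm_num)
          rw [hg', mul_comm]
          exact Nat.mul_le_mul_right _ (by omega)
  · rcases a with _ | α
    · have h1 : mulHeight₁ t ≤ ‖ψ (algebraMap K L t)‖ ^ M := hnear
      show mulHeight₁ (φ t) ≤ ‖ψ' (φ t)‖ ^ (M * d)
      rw [hHt, hψK, pow_mul]
      exact pow_le_pow_left₀ (mulHeight₁_nonneg _) h1 _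
    · have h1 : mulHeight₁ t * ‖ψ (algebraMap K L t) - ψ α‖ ^ M ≤ 1 := hnear
      show mulHeight₁ (φ t) * ‖ψ' (φ t) - ψ' (algebraMap L E α)‖ ^ (M * d) ≤ 1
      rw [hHt, hψK, hψ', pow_mul, ← mul_pow]
      exact pow_le_one₀ (mul_nonneg (mulHeight₁_nonneg _) (pow_nonneg (norm_nonneg _) _)) h1
  · rw [hHt]
    calc (2 : ℝ) ^ (g' ^ κ) ≤ 2 ^ (g ^ (κ + 1)) := pow_le_pow_right₀ (by norm_num) hpow
      _ ≤ mulHeight₁ t := hH
      _ ≤ mulHeight₁ t ^ d := le_self_pow₀ hH1 (by omega)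
  · rw [e1]
    exact (map_ne_zero_iff _ φ.injective).2 hGt
  · intro w hw hN0 hneg
    obtain ⟨v, hvS, i, hi, hvi⟩ := hTv w hw
    rw [e1, e2, ← map_div₀, hφ, hvi] at hneg ⊢
    have hvN : (adv K v).v (N : K) = 0 := by
      have h1 := hvi (N : K)
      rw [map_natCast, hN0] at h1
      rcases mul_eq_zero.1 h1.symm with h2 | h2
      · omega
      · exact h2
    have hvm : (adv E w).v (m : E) = i * (adv K v).v (m : K) := by
      have h1 := hvi (m : K)
      rwa [map_natCast] at h1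
    have h1 : (adv K v).v (F.eval t / G.eval t) < 0 := by
      by_contra hcon
      push Not at hcon
      have := mul_nonneg hi.le hcon
      omega
    obtain ⟨r, hr1, hr2⟩ := hV v hvS hvN h1
    refine ⟨i * r, ?_, ?_⟩
    · rw [hvm, abs_mul, abs_of_pos hi]
      exact mul_le_mul_of_nonneg_left hr1 hi.le
    · have h3 := Dvd.dvd.mul_left hr2 i
      have h4 : i * ((B : ℤ) * (adv K v).v (F.eval t / G.eval t) + r) =
          (B : ℤ) * (i * (adv K v).v (F.eval t / G.eval t)) + i * r := by ring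
      rwa [h4] at h3

end ext

end Run7.h197.V
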