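import Pool.Agent.Run7.h197.V.Rep

/-!
The distance from `1` of elements of a number field which are almost `n`-th powers.
-/

set_option autoImplicit false

namespace Run7.h197.V

open NumberField IsDedekindDomain Finset Pool.Agent.H691R3 Pool.Agent.Y673.Loc Pool.Agent.Y673.Cnt
open Run7.h197.ST Height Pool.Agent.H951R3.V Run7.h197.Q

variable {K : Type} [Field K] [NumberField K]

/-- the height of an algebraic integer -/
lemma height_int (y : 𝓞 K) (k : ℕ) (h : ∀ ψ : K →+* ℂ, ‖ψ (y : K)‖ ≤ 2 ^ k) :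
    mulHeight₁ (y : K) ≤ 2 ^ (k * Module.finrank ℚ K) := by
  classical
  rw [NumberField.mulHeight₁_eq]
  have h1 : ∏ᶠ v : FinitePlace K, max (v (y : K)) 1 = 1 := by
    apply finprod_eq_one_of_forall_eq_one
    intro v
    apply max_eq_right
    rw [← FinitePlace.norm_embedding_eq]
    exact FinitePlace.norm_le_one _ _ y
  rw [h1, mul_one, ← totalWeight_eq_finrank, totalWeight_eq_sum_mult, pow_mul]
  calc ∏ v : InfinitePlace K, max (v (y : K)) 1 ^ v.mult ≤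
        ∏ v : InfinitePlace K, ((2 : ℝ) ^ k) ^ v.mult := by
        apply Finset.prod_le_prod (fun v _ => by positivity)
        intro v _
        apply pow_le_pow_left₀ (by positivity)
        apply max_le
        · rw [← InfinitePlace.norm_embedding_eq v]
          exact h _
        · exact one_le_pow₀ (by norm_num)
    _ = _ := by rw [Finset.prod_pow_eq_pow_sum]

/-- **the distance from `1`** -/
theorem farV (S : Finset (HeightOneSpectrum (𝓞 K))) (s C : ℕ) :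
    ∃ κ g₀ : ℕ, ∀ g n m N : ℕ, g₀ ≤ g → g ^ κ ≤ n → n < 2 ^ g → m ≠ 0 → N ≠ 0 → m ≤ 2 ^ g →
      N ≤ 2 ^ g → N.primeFactors.card ≤ s → ∀ x : K, x ≠ 0 →
      Close (S : Set (HeightOneSpectrum (𝓞 K))) n m N x → (∀ k : ℕ, 1 ≤ k → x ^ k ≠ 1) →
      ∀ X : ℕ, mulHeight₁ x ≤ 2 ^ (C * X) → g ^ κ ≤ X → ∀ φ : K →+* ℂ,
        (2 : ℝ) ^ g / 2 ^ X < ‖φ x - 1‖ := by
  classical
  obtain ⟨h, B, m₀, hh, hrep⟩ := repV (K := K) S s
  obtain ⟨D, hD⟩ : ∃ D, D = Module.finrank ℚ K := ⟨_, rfl⟩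
  obtain ⟨C', hC'⟩ : ∃ C', C' = 2 * (h * C + 2 * (B * D * m₀) + 1) := ⟨_, rfl⟩
  obtain ⟨κ, g₁, hA⟩ := archV (K := K) m₀ C'
  obtain ⟨Q, hQ⟩ : ∃ Q, Q = B + 4 * h + 2 := ⟨_, rfl⟩
  obtain ⟨P, hP⟩ : ∃ P, P = Q ^ κ := ⟨_, rfl⟩
  refine ⟨κ + 1, g₁ + P + 2, ?_⟩
  intro g n m N hg hgn hn2 hm hN hmg hNg hNs x hx0 hxS hroot X hxX hgX φ
  by_contra hcl
  push Not at hcl
  have hg2 : 2 ≤ g := by omega
  have hgκ : 1 ≤ g ^ κ := Nat.one_le_pow _ _ (by omega)
  obtain ⟨g', hg'⟩ : ∃ g', g' = Q * g := ⟨_, rfl⟩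
  have hgg' : g ≤ g' := by rw [hg']; exact Nat.le_mul_of_pos_left _ (by omega)
  have hpow : g' ^ κ ≤ g ^ (κ + 1) := by
    rw [hg', mul_pow, ← hP, pow_succ, mul_comm]
    exact Nat.mul_le_mul_left _ (by omega)
  have hn2' : 2 ≤ n := by
    calc 2 ≤ g := hg2
      _ ≤ g ^ (κ + 1) := Nat.le_self_pow (by omega) _
      _ ≤ n := hgn
  have hn1 : 1 ≤ n := by omega
  obtain ⟨J, _, γ, e, e', Y, hJ, hγ, hγB, hY0, he, he', hxY⟩ :=
    hrep g n m N (by omega) hn2' hm hN hmg hNg hNs x hx0 hxS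
  obtain ⟨k, hk0, hkH, hki⟩ := NumberField.exists_nat_le_mulHeight₁ Y
  have hkK : (k : K) ≠ 0 := Nat.cast_ne_zero.2 hk0
  have hγK : ∀ j, (γ j : K) ≠ 0 := fun j => RingOfIntegers.coe_ne_zero_iff.mpr (hγ j)
  have hprod0 : ∀ f : J → ℕ, (∏ j, (γ j : K) ^ (f j)) ≠ 0 := fun f =>
    Finset.prod_ne_zero_iff.mpr fun j _ => pow_ne_zero _ (hγK j)
  -- the height of `Y`
  have hHγ : ∀ f : J → ℕ, (∀ j, f j < n) →
      mulHeight₁ (∏ j, (γ j : K) ^ (f j)) ≤ (2 ^ (B * g * D * m₀)) ^ n := by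
    intro f hf
    refine (height_prod_pow (fun j => (γ j : K)) f n hf).trans ?_
    apply pow_le_pow_left₀ (Finset.prod_nonneg fun j _ => mulHeight₁_nonneg _)
    calc ∏ j, mulHeight₁ (γ j : K) ≤ ∏ _j : J, (2 : ℝ) ^ (B * g * D) := by
          apply Finset.prod_le_prod (fun j _ => mulHeight₁_nonneg _)
          intro j _
          rw [hD]
          exact height_int (γ j) (B * g) fun ψ => hγB ψ j
      _ = _ := by rw [Finset.prod_const, Finset.card_univ, hJ, ← pow_mul]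
  obtain ⟨W, hW⟩ : ∃ W, W = h * (C * X) + 2 * (B * g * D * m₀ * n) := ⟨_, rfl⟩
  have hHY : mulHeight₁ Y ^ n ≤ 2 ^ W := by
    have h1 : Y ^ n = x ^ h * (∏ j, (γ j : K) ^ (e' j)) * (∏ j, (γ j : K) ^ (e j))⁻¹ := by
      rw [hxY]
      have := hprod0 e
      field_simp
    calc mulHeight₁ Y ^ n = mulHeight₁ (Y ^ n) := (mulHeight₁_pow _ _).symm
      _ = mulHeight₁ (x ^ h * (∏ j, (γ j : K) ^ (e' j)) * (∏ j, (γ j : K) ^ (e j))⁻¹) := by rw [h1]
      _ ≤ mulHeight₁ (x ^ h * (∏ j, (γ j : K) ^ (e' j))) * mulHeight₁ (∏ j, (γ j : K) ^ (e j))⁻¹ :=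
          mulHeight₁_mul_le _ _
      _ ≤ (mulHeight₁ (x ^ h) * mulHeight₁ (∏ j, (γ j : K) ^ (e' j))) *
            mulHeight₁ (∏ j, (γ j : K) ^ (e j))⁻¹ :=
          mul_le_mul_of_nonneg_right (mulHeight₁_mul_le _ _) (mulHeight₁_nonneg _)
      _ = (mulHeight₁ x ^ h * mulHeight₁ (∏ j, (γ j : K) ^ (e' j))) *
            mulHeight₁ (∏ j, (γ j : K) ^ (e j)) := by rw [mulHeight₁_pow, mulHeight₁_inv]
      _ ≤ ((2 ^ (C * X)) ^ h * (2 ^ (B * g * D * m₀)) ^ n) * (2 ^ (B * g * D * m₀)) ^ n := by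
          apply mul_le_mul _ (hHγ e he) (mulHeight₁_nonneg _) (by positivity)
          apply mul_le_mul _ (hHγ e' he') (mulHeight₁_nonneg _) (by positivity)
          exact pow_le_pow_left₀ (mulHeight₁_nonneg _) hxX _
      _ = 2 ^ W := by
          rw [hW, ← pow_mul, ← pow_mul, ← pow_add, ← pow_add]
          congr 1
          ring
  obtain ⟨V, hV⟩ : ∃ V, V = W / n + 1 := ⟨_, rfl⟩
  have hWV : W ≤ V * n := by
    rw [hV, mul_comm]
    exact (Nat.lt_mul_div_succ _ (by omega)).le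
  have hHV : mulHeight₁ Y ≤ 2 ^ V := by
    have h1 : mulHeight₁ Y ^ n ≤ (2 ^ V) ^ n := by
      rw [← pow_mul]
      exact hHY.trans (pow_le_pow_right₀ (by norm_num) hWV)
    exact (pow_le_pow_iff_left₀ (mulHeight₁_nonneg _) (by positivity) (by omega)).mp h1
  let Y₁ : 𝓞 K := ⟨(k : K) * Y, hki⟩
  have hY₁ : (Y₁ : K) = (k : K) * Y := rfl
  have hY₁0 : Y₁ ≠ 0 := RingOfIntegers.coe_ne_zero_iff.mp
    (show (Y₁ : K) ≠ 0 by rw [hY₁]; exact mul_ne_zero hkK hY0)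
  have hk𝓞 : ((k : 𝓞 K) : K) = (k : K) := by simp
  have hk𝓞0 : (k : 𝓞 K) ≠ 0 := RingOfIntegers.coe_ne_zero_iff.mp
    (show ((k : 𝓞 K) : K) ≠ 0 by rw [hk𝓞]; exact hkK)
  let a : 𝓞 K := (∏ j, γ j ^ (e j)) * Y₁ ^ n
  let b : 𝓞 K := (∏ j, γ j ^ (e' j)) * (k : 𝓞 K) ^ n
  have haK : (a : K) = (∏ j, (γ j : K) ^ (e j)) * (Y₁ : K) ^ n := by
    show algebraMap (𝓞 K) K _ = _
    rw [map_mul, map_prod, map_pow]
    simp only [map_pow]
  have hbK : (b : K) = (∏ j, (γ j : K) ^ (e' j)) * ((k : 𝓞 K) : K) ^ n := by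
    show algebraMap (𝓞 K) K _ = _
    rw [map_mul, map_prod, map_pow]
    simp only [map_pow]
  have hax : (a : K) = x ^ h * (b : K) := by
    rw [haK, hbK, hY₁, hk𝓞, ← mul_assoc, hxY, mul_pow]
    ring
  have hb0K : (b : K) ≠ 0 := by
    rw [hbK, hk𝓞]
    exact mul_ne_zero (hprod0 e') (pow_ne_zero _ hkK)
  have ha0 : a ≠ 0 := RingOfIntegers.coe_ne_zero_iff.mp
    (show (a : K) ≠ 0 by rw [hax]; exact mul_ne_zero (pow_ne_zero _ hx0) hb0K)
  have hb0 : b ≠ 0 := RingOfIntegers.coe_ne_zero_iff.mp hb0K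
  have hquot : ∀ ψ : K →+* ℂ, ψ (a : K) / ψ (b : K) = (ψ x) ^ h := by
    intro ψ
    rw [hax, map_mul, map_pow]
    have h1 : ψ (b : K) ≠ 0 := (map_ne_zero ψ).2 hb0K
    field_simp
  have key := hA g' (le_trans (by omega) hgg') J hJ γ hγ (fun ψ j => (hγB ψ j).trans (by
      apply pow_le_pow_right₀ (by norm_num)
      rw [hg']
      exact Nat.mul_le_mul_right _ (by omega))) n (hpow.trans hgn)
    (hn2.trans_le (Nat.pow_le_pow_right (by norm_num) hgg')) X (2 * V) a b Y₁ (k : 𝓞 K) e e' ha0 hb0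
    hY₁0 hk𝓞0 he he' haK hbK ?_ ?_ ?_ φ ?_
  · -- contradiction
    omega
  · -- the size
    have h1 : n * V ≤ W + n := by
      rw [hV, mul_add, mul_one]
      exact Nat.add_le_add_right (Nat.mul_div_le _ _) _
    have h2 : W + n ≤ (h * C + 2 * (B * D * m₀) + 1) * (g' * n + X) := by
      have e1 : g * n ≤ g' * n := Nat.mul_le_mul_right _ hgg'
      have e2 : n ≤ g' * n := Nat.le_mul_of_pos_left _ (by omega)
      have e3 : (2 * (B * D * m₀)) * (g * n) ≤ (2 * (B * D * m₀)) * (g' * n + X) :=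
        Nat.mul_le_mul_left _ (by omega)
      have e4 : h * C * X ≤ h * C * (g' * n + X) := Nat.mul_le_mul_left _ (by omega)
      calc W + n = h * C * X + (2 * (B * D * m₀)) * (g * n) + n := by rw [hW]; ring
        _ ≤ h * C * (g' * n + X) + (2 * (B * D * m₀)) * (g' * n + X) + (g' * n + X) := by omega
        _ = _ := by ring
    calc n * (2 * V) = 2 * (n * V) := by ring
      _ ≤ 2 * ((h * C + 2 * (B * D * m₀) + 1) * (g' * n + X)) := by omega
      _ = C' * (g' * n + X) := by rw [hC']; ring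
  · intro ψ
    have hk2 : (k : ℝ) ≤ 2 ^ V := hkH.trans hHV
    have hY2 : ‖ψ Y‖ ≤ 2 ^ V := (norm_le_height ψ Y).trans hHV
    constructor
    · rw [hY₁, map_mul, norm_mul, map_natCast, Complex.norm_natCast, two_mul, pow_add]
      exact mul_le_mul hk2 hY2 (norm_nonneg _) (by positivity)
    · rw [hk𝓞, map_natCast, Complex.norm_natCast]
      exact hk2.trans (pow_le_pow_right₀ (by norm_num) (by omega))
  · intro i hi heq
    apply hroot (h * i) (Nat.mul_pos hh hi)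
    rw [hax, mul_pow, ← pow_mul] at heq
    have h1 : (b : K) ^ i ≠ 0 := pow_ne_zero _ hb0K
    exact mul_right_cancel₀ h1 (by rw [heq, one_mul])
  · rw [hquot]
    refine (abs_pow_sub_one _ _ _ _ hcl).trans ?_
    apply div_le_div_of_nonneg_right _ (by positivity)
    apply pow_le_pow_right₀ (by norm_num)
    rw [hg', hQ]
    nlinarith [Nat.zero_le (B * g)]

end Run7.h197.V
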