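import Pool.Agent.Run7.h197.V.Hgt
import Pool.Agent.Run7.h197.Q.DynG

/-!
Pole orders over extensions of bounded degree.
-/

set_option autoImplicit false

namespace Run7.h197.V

open NumberField IsDedekindDomain Finset Pool.Agent.H691R3 Pool.Agent.Y673.Loc Pool.Agent.Y673.Cnt
open Run7.h197.ST Height Pool.Agent.H951R3.V Run7.h197.Q Pool.Agent.Y673.Loc.ZV
open Pool.Agent.K4H56.IF Run7.h197.FMS Run7.h197.N Polynomial Pool.Agent.TH876.Loc

section
variable {K : Type} [Field K] [NumberField K]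

lemma val_nat_pos_iff (v : HeightOneSpectrum (𝓞 K)) {q : ℕ} (hq : q ≠ 0) :
    (adv K v).v (q : K) ≠ 0 ↔ (q : 𝓞 K) ∈ v.asIdeal := by
  have h0 := val_nat_nonneg v q hq
  have h2 := le_adv_iff K v (q : 𝓞 K) (Nat.cast_ne_zero.2 hq) 1
  rw [map_natCast, pow_one] at h2
  rw [← h2]
  push_cast
  omega

/-- **poles over extensions of bounded degree** -/
theorem fewExt (F G : K[X]) (hcop : IsCoprime F G) (hG : G ≠ 0) (L : Type) [Field L]
    [NumberField L] [Algebra K L] (q : ℕ) (hq : q ≠ 0) (M s D : ℕ) :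
    ∃ κ : ℕ, ∀ (n : ℕ) (t : K) (a : Option L) (ψ : L →+* ℂ), G.eval t ≠ 0 →
      TwoPoles F G (ψ.comp (algebraMap K L)) (a.map ψ) → NearL ψ M t a →
      ∀ (P : Type) [Field P] [NumberField P] [Algebra K P], Module.finrank K P ≤ D →
      ∀ T : Finset (HeightOneSpectrum (𝓞 P)), T.card ≤ s →
      (∀ w : HeightOneSpectrum (𝓞 P), (q : 𝓞 P) ∉ w.asIdeal → w ∉ T →
        (adv P w).v (algebraMap K P (F.eval t / G.eval t)) < 0 →
        (n : ℤ) ∣ (adv P w).v (algebraMap K P (F.eval t / G.eval t))) →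
      min (n : ℝ) (Real.log (mulHeight₁ t)) ≤
        (2 + Real.log (hp a) + ∑ v ∈ T, Real.log (Ideal.absNorm v.asIdeal)) ^ κ := by
  classical
  have hqK : (q : K) ≠ 0 := Nat.cast_ne_zero.2 hq
  obtain ⟨κ, hκ⟩ := final F G hcop hG L {v | (adv K v).v (q : K) ≠ 0} (supp_finite hqK) M
    D.factorial s (Nat.factorial_pos D)
  refine ⟨κ, ?_⟩
  intro n t a ψ hGt htwo hnear P _ _ _ hPD T hT hd
  have hpv : ∀ w ∈ T, pv w ≠ 0 := fun w _ => (pv_prime w).ne_zero
  have hN0 : ∏ w ∈ T, pv w ≠ 0 := Finset.prod_ne_zero_iff.2 hpv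
  have hNc : (∏ w ∈ T, pv w).primeFactors.card ≤ s := by
    have h1 : (∏ w ∈ T, pv w).primeFactors ⊆ T.image pv := by
      intro p hp
      rw [Nat.mem_primeFactors] at hp
      obtain ⟨v, hv, hpv'⟩ := (hp.1.prime.dvd_finsetProd_iff _).1 hp.2.1
      rw [Nat.prime_dvd_prime_iff_eq hp.1 (pv_prime v)] at hpv'
      exact Finset.mem_image.2 ⟨v, hv, hpv'.symm⟩
    exact ((Finset.card_le_card h1).trans Finset.card_image_le).trans hT
  have hNl : Real.log ((∏ w ∈ T, pv w : ℕ) : ℝ) ≤ ∑ v ∈ T, Real.log (Ideal.absNorm v.asIdeal) := by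
    rw [Nat.cast_prod, Real.log_prod]
    · refine Finset.sum_le_sum fun v _ => ?_
      apply Real.log_le_log
      · exact_mod_cast (pv_prime v).pos
      · exact_mod_cast pv_le v
    · intro v hv
      exact Nat.cast_ne_zero.2 (hpv v hv)
  have h1 := hκ n 1 (∏ w ∈ T, pv w) t a ψ one_ne_zero hN0 hNc htwo hnear hGt (by
    intro v hvS hvN hneg
    simp only [Set.mem_ofPred_eq, not_not] at hvS
    obtain ⟨w, e, he1, heL, hwe⟩ := above_le P v
    have he0 : (0 : ℤ) < e := by exact_mod_cast he1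
    have hnat : ∀ c : ℕ, (adv P w).v (c : P) = e * (adv K v).v (c : K) := by
      intro c
      have := hwe (c : K)
      rwa [map_natCast] at this
    have hqw : (q : 𝓞 P) ∉ w.asIdeal := by
      rw [← val_nat_pos_iff w hq, not_not, hnat, hvS, mul_zero]
    have hwT : w ∉ T := by
      intro hwT
      have h2 : (adv K v).v ((∏ w ∈ T, pv w : ℕ) : K) = ∑ w ∈ T, (adv K v).v (pv w : K) :=
        val_prod_nat v T pv hpv
      have h3 : (adv K v).v (pv w : K) ≤ ∑ w ∈ T, (adv K v).v (pv w : K) :=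
        Finset.single_le_sum (f := fun w => (adv K v).v (pv w : K))
          (fun w _ => val_nat_nonneg v _ (pv_prime w).ne_zero) hwT
      have h4 := one_le_val_pv w
      rw [hnat] at h4
      have h5 : (adv K v).v (pv w : K) ≤ 0 := by rw [← h2, hvN] at h3; exact h3
      nlinarith
    have h2 : (adv P w).v (algebraMap K P (F.eval t / G.eval t)) < 0 := by
      rw [hwe]
      nlinarith
    have h3 := hd w hqw hwT h2
    rw [hwe] at h3
    obtain ⟨k, hk⟩ := Nat.dvd_factorial he1 (heL.trans hPD)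
    refine ⟨0, by rw [abs_zero]; exact val_nat_nonneg v 1 one_ne_zero, ?_⟩
    rw [hk, add_zero]
    push_cast
    have h4 := Dvd.dvd.mul_left h3 (k : ℤ)
    have h5 : (k : ℤ) * ((e : ℤ) * (adv K v).v (F.eval t / G.eval t)) =
        (e : ℤ) * k * (adv K v).v (F.eval t / G.eval t) := by ring
    rwa [h5] at h4)
  refine h1.trans ?_
  have l2 : 0 ≤ Real.log ((∏ w ∈ T, pv w : ℕ) : ℝ) := Real.log_natCast_nonneg _
  have l3 : 0 ≤ Real.log (hp a) := Real.log_nonneg (one_le_hp a)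
  rw [Nat.cast_one, Real.log_one]
  apply pow_le_pow_left₀ (by linarith)
  linarith

end

end Run7.h197.V
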