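import Pool.Agent.Run7.h197.V.Param

/-!
The final form of the bounds for parameters which are close to a point of small height.
-/

set_option autoImplicit false

namespace Run7.h197.V

open NumberField IsDedekindDomain Finset Pool.Agent.H691R3 Pool.Agent.Y673.Loc Pool.Agent.Y673.Cnt
open Run7.h197.ST Height Pool.Agent.H951R3.V Run7.h197.Q Pool.Agent.Y673.Loc.ZV
open Pool.Agent.K4H56.IF Run7.h197.FMS Run7.h197.N Polynomial

section
variable {K : Type} [Field K] [NumberField K]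

lemma one_le_hp (a : Option K) : 1 ≤ hp a := by
  rcases a with _ | α
  · exact le_refl _
  · exact one_le_mulHeight₁ α

/-- **the bound** -/
theorem final (F G : K[X]) (hcop : IsCoprime F G) (hG : G ≠ 0) (L : Type) [Field L]
    [NumberField L] [Algebra K L] (S : Set (HeightOneSpectrum (𝓞 K))) (hS : S.Finite) (M B s : ℕ)
    (hB : 1 ≤ B) :
    ∃ κ : ℕ, ∀ (n m N : ℕ) (t : K) (a : Option L) (ψ : L →+* ℂ), m ≠ 0 → N ≠ 0 →
      N.primeFactors.card ≤ s → TwoPoles F G (ψ.comp (algebraMap K L)) (a.map ψ) →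
      NearL ψ M t a → G.eval t ≠ 0 → PoleV S n m N B (F.eval t / G.eval t) →
      min (n : ℝ) (Real.log (mulHeight₁ t)) ≤
        (2 + Real.log m + Real.log N + Real.log (hp a)) ^ κ := by
  obtain ⟨κ₁, g₀, hmain⟩ := paramV F G hcop hG L S hS M B s hB
  refine ⟨(g₀ + 4) * κ₁, ?_⟩
  intro n m N t a ψ hm hN hNs htwo hnear hGt hV
  obtain ⟨R, hR⟩ : ∃ R, R = 2 + Real.log m + Real.log N + Real.log (hp a) := ⟨_, rfl⟩
  rw [← hR]
  have l1 : 0 ≤ Real.log m := Real.log_natCast_nonneg m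
  have l2 : 0 ≤ Real.log N := Real.log_natCast_nonneg N
  have l3 : 0 ≤ Real.log (hp a) := Real.log_nonneg (one_le_hp a)
  have hR2 : 2 ≤ R := by rw [hR]; linarith
  obtain ⟨g, hg⟩ : ∃ g, g = g₀ + ⌈2 * R⌉₊ := ⟨_, rfl⟩
  have hgR : 2 * R ≤ g := by
    rw [hg]
    push_cast
    have := Nat.le_ceil (2 * R)
    have h0 : (0 : ℝ) ≤ g₀ := Nat.cast_nonneg _
    linarith
  have hlog2 : (1 / 2 : ℝ) ≤ Real.log 2 := by
    have := Real.log_two_gt_d9
    linarith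
  have hle : ∀ x : ℝ, 0 < x → Real.log x ≤ R → x ≤ 2 ^ g := by
    intro x hx hxR
    rw [← Real.log_le_log_iff hx (by positivity), Real.log_pow]
    have h1 : R ≤ g * (1 / 2) := by linarith
    exact hxR.trans (h1.trans (mul_le_mul_of_nonneg_left hlog2 (Nat.cast_nonneg _)))
  have hmg : m ≤ 2 ^ g := by
    have h := hle m (by exact_mod_cast Nat.pos_of_ne_zero hm) (by rw [hR]; linarith)
    exact_mod_cast h
  have hNg : N ≤ 2 ^ g := by
    have h := hle N (by exact_mod_cast Nat.pos_of_ne_zero hN) (by rw [hR]; linarith)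
    exact_mod_cast h
  have hag : hp a ≤ 2 ^ g := hle _ (lt_of_lt_of_le one_pos (one_le_hp a)) (by rw [hR]; linarith)
  have hgκ : ((g ^ κ₁ : ℕ) : ℝ) ≤ R ^ ((g₀ + 4) * κ₁) := by
    rw [pow_mul]
    push_cast
    apply pow_le_pow_left₀ (Nat.cast_nonneg _)
    have h1 : (g : ℝ) ≤ g₀ + (2 * R + 1) := by
      rw [hg]
      push_cast
      have := (Nat.ceil_lt_add_one (show 0 ≤ 2 * R by linarith)).le
      linarith
    have h2 : (g₀ : ℝ) + 4 ≤ 2 ^ (g₀ + 3) := by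
      have h3 : g₀ + 4 ≤ 2 ^ (g₀ + 3) := by
        have h4 : g₀ + 3 < 2 ^ (g₀ + 3) := Nat.lt_two_pow_self
        omega
      exact_mod_cast h3
    calc (g : ℝ) ≤ g₀ + (2 * R + 1) := h1
      _ ≤ (g₀ + 4) * R := by nlinarith [(Nat.cast_nonneg g₀ : (0 : ℝ) ≤ g₀)]
      _ ≤ 2 ^ (g₀ + 3) * R := mul_le_mul_of_nonneg_right h2 (by linarith)
      _ ≤ R ^ (g₀ + 3) * R :=
          mul_le_mul_of_nonneg_right (pow_le_pow_left₀ (by norm_num) hR2 _) (by linarith)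
      _ = R ^ (g₀ + 4) := by rw [← pow_succ]
  by_contra hcon
  push Not at hcon
  obtain ⟨c1, c2⟩ := lt_min_iff.1 hcon
  have h1 : g ^ κ₁ ≤ n := by
    have : ((g ^ κ₁ : ℕ) : ℝ) ≤ n := hgκ.trans c1.le
    exact_mod_cast this
  have hHpos : 0 < mulHeight₁ t := lt_of_lt_of_le one_pos (one_le_mulHeight₁ _)
  have h2 : (2 : ℝ) ^ (g ^ κ₁) ≤ mulHeight₁ t := by
    rw [← Real.log_le_log_iff (by positivity) hHpos, Real.log_pow]
    have h3 : Real.log 2 ≤ 1 := by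
      have := Real.log_two_lt_d9
      linarith
    have h4 : ((g ^ κ₁ : ℕ) : ℝ) * Real.log 2 ≤ ((g ^ κ₁ : ℕ) : ℝ) * 1 :=
      mul_le_mul_of_nonneg_left h3 (Nat.cast_nonneg _)
    rw [mul_one] at h4
    exact h4.trans (hgκ.trans c2.le)
  exact hmain g n m N (by omega) h1 hm hN hmg hNg hNs t a ψ htwo hag hnear h2 hGt hV

/-- the distance from `e` to the nearest multiple of `n` -/
noncomputable def dist (n : ℕ) (e : ℤ) : ℕ := sInf {k : ℕ | ∃ r : ℤ, (k : ℤ) = |r| ∧ (n : ℤ) ∣ e + r}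

lemma dist_set (n : ℕ) (e : ℤ) : {k : ℕ | ∃ r : ℤ, (k : ℤ) = |r| ∧ (n : ℤ) ∣ e + r}.Nonempty :=
  ⟨e.natAbs, -e, by rw [abs_neg]; exact (Int.abs_eq_natAbs e).symm, by rw [add_neg_cancel]; exact dvd_zero _⟩

lemma dist_spec (n : ℕ) (e : ℤ) : ∃ r : ℤ, (dist n e : ℤ) = |r| ∧ (n : ℤ) ∣ e + r :=
  Nat.sInf_mem (dist_set n e)

lemma dist_le (n : ℕ) (e r : ℤ) (h : (n : ℤ) ∣ e + r) : (dist n e : ℤ) ≤ |r| := by
  have h1 : dist n e ≤ r.natAbs :=
    Nat.sInf_le ⟨r, (Int.abs_eq_natAbs r).symm, h⟩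
  calc (dist n e : ℤ) ≤ (r.natAbs : ℤ) := by exact_mod_cast h1
    _ = |r| := (Int.abs_eq_natAbs r).symm

lemma dist_zero (n : ℕ) : dist n 0 = 0 := by
  have h := dist_le n 0 0 (by simp)
  rw [abs_zero] at h
  omega

end

end Run7.h197.V
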