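import Pool.Agent.Run7.h197.V.Ext
import Pool.Agent.N365.FH.B

/-!
The Faltings height of elliptic curves in one-parameter families near moving targets.
-/

set_option autoImplicit false

namespace Run7.h197.V

open NumberField IsDedekindDomain Finset Pool.Agent.H691R3 Pool.Agent.Y673.Loc Pool.Agent.Y673.Cnt
open Run7.h197.ST Height Run7.h197.Q Pool.Agent.Y673.Loc.ZV
open Pool.Agent.K4H56.IF Run7.h197.FMS Run7.h197.N Polynomial
open Pool.Agent.H951R3.V (ell ell_pos)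
open Pool.Agent.Y733.FF (discSum multN addN mw aw SemiAt discExp)
open Pool.Agent.TH876.FH (GoodAt IsPeriod arch Hj_height)

section
variable {K : Type} [Field K] [NumberField K]

lemma log_fv' (v : HeightOneSpectrum (𝓞 K)) {x : K} (hx : x ≠ 0) :
    Real.log (fv v x) = -((adv K v).v x : ℝ) * ell v := by
  rw [fv_adv v hx, Real.log_zpow]
  push_cast
  rfl

lemma val_ne_of_log {x : K} (hx : x ≠ 0) (v : HeightOneSpectrum (𝓞 K))
    (h : (adv K v).v x < 0) : 1 < fv v x := by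
  have h1 := log_fv' v hx
  have h2 : 0 < fv v x := (fv v).pos hx
  by_contra hcon
  push Not at hcon
  have h3 := Real.log_nonpos h2.le hcon
  have h4 := ell_pos v
  have h5 : ((adv K v).v x : ℝ) < 0 := by exact_mod_cast h
  nlinarith

lemma val_neg_iff (v : HeightOneSpectrum (𝓞 K)) (x : K) :
    (adv K v).v x < 0 ↔ 1 < fv v x := by
  by_cases hx : x = 0
  · subst hx
    rw [adv_zero, map_zero]
    constructor
    · intro h
      exact absurd h (lt_irrefl _)
    · intro h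
      linarith
  constructor
  · exact val_ne_of_log hx v
  · intro h
    have h1 := log_fv' v hx
    have h2 := Real.log_pos h
    have h4 := ell_pos v
    by_contra hcon
    push Not at hcon
    have h5 : (0 : ℝ) ≤ ((adv K v).v x : ℝ) := by exact_mod_cast hcon
    nlinarith

/-- poles are places of bad reduction -/
lemma bad_of_pole (v : HeightOneSpectrum (𝓞 K)) (E : WeierstrassCurve K) (hE : E.Δ ≠ 0)
    (h : (adv K v).v (E.c₄ ^ 3 / E.Δ) < 0) : ¬ GoodAt v E := by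
  intro hg
  have h1 := Pool.Agent.Y733.FF.good_int v E hE hg
  have h2 := (val_neg_iff v _).1 h
  linarith

/-- the pole at a place of multiplicative reduction -/
lemma pole_of_mult (v : HeightOneSpectrum (𝓞 K)) (E : WeierstrassCurve K) (hE : E.Δ ≠ 0)
    (hs : SemiAt v E) (hb : ¬ GoodAt v E) : 1 < fv v (E.c₄ ^ 3 / E.Δ) := by
  obtain ⟨C, h1, h2, h3, h4, h6, h7⟩ := hs
  have h0 := Pool.Agent.Y733.FF.disc_ne E hE C
  have hΔ : v.valuation K (C • E).Δ ≠ 1 := fun h => hb ⟨C, h1, h2, h3, h4, h6, h⟩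
  have hc : v.valuation K (C • E).c₄ = 1 := h7.resolve_left hΔ
  have hΔ1 : fv v (C • E).Δ < 1 := by
    apply lt_of_le_of_ne ((Pool.Agent.Y733.FF.fv_le_one_iff v).2
      (Pool.Agent.Y733.FF.int_disc v _ ⟨h1, h2, h3, h4, h6⟩).1)
    rw [Ne, Pool.Agent.Y733.FF.fv_one_iff]
    exact hΔ
  rw [Pool.Agent.Y733.FF.j_change E hE C, map_div₀, map_pow, (Pool.Agent.Y733.FF.fv_one_iff v).2 hc,
    one_pow, lt_div_iff₀ ((fv v).pos h0), one_mul]
  exact hΔ1

/-- the primes not dividing six which are ramified in the `n`-division field -/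
def ramified (n : ℕ) (E : WeierstrassCurve K) : Set (HeightOneSpectrum (𝓞 K)) :=
  {v | v.valuation K 6 = 1 ∧ ¬ GoodAt v E ∧
    ¬ (SemiAt v E ∧ (n : ℤ) ∣ (adv K v).v (E.c₄ ^ 3 / E.Δ))}

/-- the logarithm of their product -/
noncomputable def logCond (n : ℕ) (E : WeierstrassCurve K) : ℝ :=
  ∑ᶠ v ∈ ramified n E, Real.log (Ideal.absNorm v.asIdeal)

lemma ram_fin (n : ℕ) (E : WeierstrassCurve K) (hE : E.Δ ≠ 0) : (ramified n E).Finite :=
  (Pool.Agent.Y733.FF.bad_fin E hE).subset fun _ h => h.2.1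

lemma logCond_nonneg (n : ℕ) (E : WeierstrassCurve K) : 0 ≤ logCond n E :=
  finsum_nonneg fun v => finsum_nonneg fun _ => log_absNorm_nonneg v

lemma sum_le_logCond (n : ℕ) (E : WeierstrassCurve K) (hE : E.Δ ≠ 0)
    (T : Finset (HeightOneSpectrum (𝓞 K))) (hT : ∀ v ∈ T, v ∈ ramified n E) :
    ∑ v ∈ T, Real.log (Ideal.absNorm v.asIdeal) ≤ logCond n E := by
  unfold logCond
  rw [finsum_mem_eq_finite_toFinset_sum _ (ram_fin n E hE)]
  apply Finset.sum_le_sum_of_subset_of_nonneg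
  · intro v hv
    rw [Set.Finite.mem_toFinset]
    exact hT v hv
  · intro v _ _
    exact log_absNorm_nonneg v

/-- the multiplicative part of the conductor -/
lemma multN_le (E : WeierstrassCurve K) (hE : E.Δ ≠ 0) :
    Real.log (multN E) ≤ logHeight₁ (E.c₄ ^ 3 / E.Δ) := by
  rw [Pool.Agent.Y733.FF.log_multN E hE, Hj_height]
  have h1 : ∑ᶠ v : HeightOneSpectrum (𝓞 K), mw v E ≤
      ∑ᶠ v : HeightOneSpectrum (𝓞 K), Real.log (max (fv v (E.c₄ ^ 3 / E.Δ)) 1) := by
    refine finsum_le_finsum' (Pool.Agent.Y733.FF.supp_mw E hE)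
      (Pool.Agent.Y733.LS.Fs_ht (E.c₄ ^ 3 / E.Δ)) fun v => ?_
    by_cases h : v ∈ {v : HeightOneSpectrum (𝓞 K) | ¬ GoodAt v E ∧ SemiAt v E ∧ v.valuation K 6 = 1}
    · have h2 := pole_of_mult v E hE h.2.1 h.1
      have hj0 : E.c₄ ^ 3 / E.Δ ≠ 0 := by
        intro h0
        rw [h0, map_zero] at h2
        linarith
      have h3 := (val_neg_iff v _).2 h2
      have h4 := log_fv' v hj0
      unfold mw
      rw [if_pos h, max_eq_left h2.le, h4]
      have h5 := ell_pos v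
      have h6 : ((adv K v).v (E.c₄ ^ 3 / E.Δ) : ℝ) ≤ -1 := by exact_mod_cast (by omega)
      show ell v ≤ _
      nlinarith
    · unfold mw
      rw [if_neg h]
      exact Real.log_nonneg (le_max_right _ _)
  have h2 : 0 ≤ ∑ w : InfinitePlace K, (w.mult : ℝ) * Real.log (max (w (E.c₄ ^ 3 / E.Δ)) 1) :=
    Finset.sum_nonneg fun w _ => mul_nonneg (Nat.cast_nonneg _) (Real.log_nonneg (le_max_right _ _))
  have h3 : ∑ᶠ v : HeightOneSpectrum (𝓞 K), Real.log (max (fv v (E.c₄ ^ 3 / E.Δ)) 1) =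
    ∑ᶠ v : HeightOneSpectrum (𝓞 K), Real.log (max (FinitePlace.mk v (E.c₄ ^ 3 / E.Δ)) 1) := rfl
  rw [h3] at h1
  linarith

/-- the additive part of the conductor -/
lemma addN_le (n : ℕ) (E : WeierstrassCurve K) (hE : E.Δ ≠ 0) :
    Real.log (addN E) ≤ 2 * logCond n E := by
  classical
  rw [Pool.Agent.Y733.FF.log_addN E hE]
  have hfin := Pool.Agent.Y733.FF.fin_a E hE
  have h1 : ∑ᶠ v : HeightOneSpectrum (𝓞 K), aw v E =
      ∑ v ∈ hfin.toFinset, Real.log (Ideal.absNorm v.asIdeal) := by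
    rw [finsum_eq_sum_of_support_subset (s := hfin.toFinset)]
    · refine Finset.sum_congr rfl fun v hv => ?_
      rw [Set.Finite.mem_toFinset] at hv
      unfold aw
      rw [if_pos hv]
      rfl
    · intro v hv
      rw [Finset.mem_coe, Set.Finite.mem_toFinset]
      by_contra hcon
      apply hv
      unfold aw
      exact if_neg hcon
  rw [h1]
  have h2 := sum_le_logCond n E hE hfin.toFinset (by
    intro v hv
    rw [Set.Finite.mem_toFinset] at hv
    exact ⟨hv.2, fun h => hv.1 (Pool.Agent.Y733.FF.semi_of_good h), fun h => hv.1 h.1⟩)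
  linarith

end

section
variable {K : Type} [Field K] [NumberField K]

/-- **Frey's inequality modulo `n`** -/
theorem freyV (F G : K[X]) (hcop : IsCoprime F G) (hG : G ≠ 0) (L : Type) [Field L]
    [NumberField L] [Algebra K L] (q : ℕ) (hq : q ≠ 0) (M s D : ℕ) :
    ∃ κ : ℕ, ∀ (n : ℕ) (t : K) (a : Option L) (ψ : L →+* ℂ), G.eval t ≠ 0 →
      TwoPoles F G (ψ.comp (algebraMap K L)) (a.map ψ) → NearL ψ M t a →
      ∀ (P : Type) [Field P] [NumberField P] [Algebra K P], Module.finrank K P ≤ D →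
      ∀ (E : WeierstrassCurve P) (τ : InfinitePlace P → UpperHalfPlane), E.Δ ≠ 0 →
      E.c₄ ^ 3 / E.Δ = algebraMap K P (F.eval t / G.eval t) →
      IsPeriod (E.c₄ ^ 3 / E.Δ) τ →
      {v | v ∈ ramified n E ∧ (q : 𝓞 P) ∉ v.asIdeal ∧ (adv P v).v (E.c₄ ^ 3 / E.Δ) < 0}.ncard ≤ s →
      min (n : ℝ) (discSum E + ∑ w : InfinitePlace P, (w.mult : ℝ) * arch (τ w)) ≤
        (2 + Real.log (hp a) + logCond n E) ^ κ := by
  classical
  obtain ⟨κ₁, hκ₁⟩ := fewExt F G hcop hG L (6 * q) (Nat.mul_ne_zero (by norm_num) hq) M s D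
  obtain ⟨C₁, hC₁⟩ := height_ratio F G
  obtain ⟨c, hc0, hc⟩ := Pool.Agent.N365.FH.disc_arch_le
  obtain ⟨c', hc'⟩ := exists_nat_ge (c * (Module.finrank ℚ K * D : ℕ))
  obtain ⟨κ₂, hκ₂⟩ := absorb (4 * (D * C₁) + 10 + c') (κ₁ + 1)
  refine ⟨κ₁ + κ₂, ?_⟩
  intro n t a ψ hGt htwo hnear P _ _ _ hPD E τ hE hj hτ hs
  obtain ⟨R, hR⟩ : ∃ R, R = 2 + Real.log (hp a) + logCond n E := ⟨_, rfl⟩
  rw [← hR]
  have l3 : 0 ≤ Real.log (hp a) := Real.log_nonneg (one_le_hp a)
  have l4 := logCond_nonneg n E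
  have hR2 : 2 ≤ R := by rw [hR]; linarith
  have hR1 : 1 ≤ R := by linarith
  -- the exceptional places
  have hTf : {v | v ∈ ramified n E ∧ (q : 𝓞 P) ∉ v.asIdeal ∧
      (adv P v).v (E.c₄ ^ 3 / E.Δ) < 0}.Finite := (ram_fin n E hE).subset fun v h => h.1
  obtain ⟨T, hT⟩ : ∃ T, T = hTf.toFinset := ⟨_, rfl⟩
  have hTm : ∀ v, v ∈ T ↔ v ∈ ramified n E ∧ (q : 𝓞 P) ∉ v.asIdeal ∧
      (adv P v).v (E.c₄ ^ 3 / E.Δ) < 0 := by
    intro v
    rw [hT, Set.Finite.mem_toFinset]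
    exact Iff.rfl
  have hTc : T.card ≤ s := by
    rw [Set.ncard_eq_toFinset_card _ hTf, ← hT] at hs
    exact hs
  have h1 := hκ₁ n t a ψ hGt htwo hnear P hPD T hTc (by
    intro v hv hvT hneg
    rw [← hj] at hneg ⊢
    have h60 : (6 : P) ≠ 0 := by norm_num
    have hv6q : (6 : 𝓞 P) ∉ v.asIdeal ∧ (q : 𝓞 P) ∉ v.asIdeal := by
      have e1 : ((6 * q : ℕ) : 𝓞 P) = 6 * (q : 𝓞 P) := by push_cast; rfl
      rw [e1] at hv
      exact ⟨fun h => hv (v.asIdeal.mul_mem_right _ h), fun h => hv (v.asIdeal.mul_mem_left _ h)⟩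
    have hv6 : v.valuation P 6 = 1 := by
      have h1 : v.valuation P (algebraMap (𝓞 P) P 6) ≤ 1 := v.valuation_le_one _
      have h2 : ¬ v.valuation P (algebraMap (𝓞 P) P 6) < 1 := by
        rw [v.valuation_lt_one_iff_mem]
        exact hv6q.1
      have h3 : algebraMap (𝓞 P) P 6 = 6 := map_ofNat _ _
      rw [h3] at h1 h2
      exact le_antisymm h1 (not_lt.1 h2)
    by_contra hcon
    apply hvT
    rw [hTm]
    exact ⟨⟨hv6, bad_of_pole v E hE hneg, fun h => hcon h.2⟩, hv6q.2, hneg⟩)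
  have hR1' : 2 + Real.log (hp a) + ∑ v ∈ T, Real.log (Ideal.absNorm v.asIdeal) ≤ R := by
    have := sum_le_logCond n E hE T fun v hv => ((hTm v).1 hv).1
    rw [hR]
    linarith
  have hsum0 : 0 ≤ ∑ v ∈ T, Real.log (Ideal.absNorm v.asIdeal) :=
    Finset.sum_nonneg fun v _ => log_absNorm_nonneg v
  have h2 : min (n : ℝ) (Real.log (mulHeight₁ t)) ≤ R ^ κ₁ :=
    h1.trans (pow_le_pow_left₀ (by linarith) hR1' _)
  have hDP : (Module.finrank K P : ℝ) ≤ D := by exact_mod_cast hPD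
  rcases min_le_iff.1 h2 with h3 | h3
  · refine (min_le_left _ _).trans (h3.trans ?_)
    exact pow_le_pow_right₀ hR1 (by omega)
  · refine (min_le_right _ _).trans ?_
    have h4 := hc P E τ hE hτ
    have h5 := multN_le E hE
    have h6 := addN_le n E hE
    have h7 : logHeight₁ (E.c₄ ^ 3 / E.Δ) ≤ D * (C₁ * (1 + R ^ κ₁)) := by
      rw [logHeight₁_eq_log_mulHeight₁, hj, mulHeight₁_ext P, Real.log_pow]
      have e0 : 0 ≤ Real.log (mulHeight₁ (F.eval t / G.eval t)) :=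
        Real.log_nonneg (one_le_mulHeight₁ _)
      apply mul_le_mul hDP _ e0 (Nat.cast_nonneg _)
      refine (hC₁ t).trans ?_
      apply mul_le_mul_of_nonneg_left _ (Nat.cast_nonneg _)
      linarith
    have h8 : logCond n E ≤ R := by rw [hR]; linarith
    have h9 : (1 : ℝ) ≤ R ^ κ₁ := one_le_pow₀ hR1
    have h10 : R ^ κ₁ ≤ R ^ (κ₁ + 1) := pow_le_pow_right₀ hR1 (by omega)
    have h11 : R ≤ R ^ (κ₁ + 1) := by
      calc R = R ^ 1 := (pow_one R).symm
        _ ≤ _ := pow_le_pow_right₀ hR1 (by omega)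
    have h12' : c * Module.finrank ℚ P ≤ c' := by
      refine le_trans ?_ hc'
      apply mul_le_mul_of_nonneg_left _ hc0.le
      rw [← Module.finrank_mul_finrank ℚ K P]
      exact_mod_cast Nat.mul_le_mul_left _ hPD
    have h12 : discSum E + ∑ w : InfinitePlace P, (w.mult : ℝ) * arch (τ w) ≤
        ((4 * (D * C₁) + 10 + c' : ℕ) : ℝ) * R ^ (κ₁ + 1) := by
      push_cast
      have e1 : (D : ℝ) * (C₁ * (1 + R ^ κ₁)) ≤ D * (C₁ * (2 * R ^ (κ₁ + 1))) := by
        apply mul_le_mul_of_nonneg_left _ (Nat.cast_nonneg _)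
        exact mul_le_mul_of_nonneg_left (by linarith) (Nat.cast_nonneg _)
      have e2 : (c' : ℝ) ≤ c' * R ^ (κ₁ + 1) :=
        le_mul_of_one_le_right (Nat.cast_nonneg _) (by linarith)
      linarith
    refine h12.trans ((hκ₂ R hR2).trans ?_)
    exact pow_le_pow_right₀ hR1 (by omega)

end

end Run7.h197.V
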