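import Pool.Agent.Run7.h197.V.Places

/-!
Upper bounds for heights of values of rational functions, and real bounds.
-/

set_option autoImplicit false

namespace Run7.h197.V

open NumberField IsDedekindDomain Finset Pool.Agent.H691R3 Pool.Agent.Y673.Loc Pool.Agent.Y673.Cnt
open Run7.h197.ST Height Pool.Agent.H951R3.V Run7.h197.Q Pool.Agent.Y673.Loc.ZV
open Pool.Agent.K4H56.IF Run7.h197.FMS Run7.h197.N Polynomial Pool.Agent.TH876.Loc

section
variable {K : Type} [Field K] [NumberField K]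

lemma height_eval (P : K[X]) : ∃ C k : ℕ, ∀ t : K, mulHeight₁ (P.eval t) ≤ 2 ^ C * mulHeight₁ t ^ k := by
  induction P using Polynomial.induction_on' with
  | add p q hp hq =>
    obtain ⟨C₁, k₁, h₁⟩ := hp
    obtain ⟨C₂, k₂, h₂⟩ := hq
    refine ⟨totalWeight K + C₁ + C₂, k₁ + k₂, fun t => ?_⟩
    rw [eval_add]
    calc mulHeight₁ (p.eval t + q.eval t) ≤
          2 ^ totalWeight K * mulHeight₁ (p.eval t) * mulHeight₁ (q.eval t) := mulHeight₁_add_le _ _
      _ ≤ 2 ^ totalWeight K * (2 ^ C₁ * mulHeight₁ t ^ k₁) * (2 ^ C₂ * mulHeight₁ t ^ k₂) := by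
          have h0 := mulHeight₁_nonneg t
          apply mul_le_mul _ (h₂ t) (mulHeight₁_nonneg _) (by positivity)
          exact mul_le_mul_of_nonneg_left (h₁ t) (by positivity)
      _ = _ := by rw [pow_add, pow_add, pow_add]; ring
  | monomial n a =>
    obtain ⟨C, hC⟩ := exists_two_pow (mulHeight₁ a)
    refine ⟨C, n, fun t => ?_⟩
    rw [eval_monomial]
    calc mulHeight₁ (a * t ^ n) ≤ mulHeight₁ a * mulHeight₁ (t ^ n) := mulHeight₁_mul_le _ _
      _ = mulHeight₁ a * mulHeight₁ t ^ n := by rw [mulHeight₁_pow]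
      _ ≤ _ := mul_le_mul_of_nonneg_right hC (pow_nonneg (mulHeight₁_nonneg _) _)

lemma height_ratio (F G : K[X]) : ∃ C : ℕ, ∀ t : K,
    Real.log (mulHeight₁ (F.eval t / G.eval t)) ≤ C * (1 + Real.log (mulHeight₁ t)) := by
  obtain ⟨C₁, k₁, h₁⟩ := height_eval F
  obtain ⟨C₂, k₂, h₂⟩ := height_eval G
  refine ⟨C₁ + C₂ + k₁ + k₂, fun t => ?_⟩
  have hpos : ∀ x : K, 0 < mulHeight₁ x := fun x => lt_of_lt_of_le one_pos (one_le_mulHeight₁ x)
  have h3 : mulHeight₁ (F.eval t / G.eval t) ≤ 2 ^ (C₁ + C₂) * mulHeight₁ t ^ (k₁ + k₂) := by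
    rw [div_eq_mul_inv]
    calc mulHeight₁ (F.eval t * (G.eval t)⁻¹) ≤ mulHeight₁ (F.eval t) * mulHeight₁ (G.eval t)⁻¹ :=
          mulHeight₁_mul_le _ _
      _ = mulHeight₁ (F.eval t) * mulHeight₁ (G.eval t) := by rw [mulHeight₁_inv]
      _ ≤ (2 ^ C₁ * mulHeight₁ t ^ k₁) * (2 ^ C₂ * mulHeight₁ t ^ k₂) := by
          have h0 := mulHeight₁_nonneg t
          exact mul_le_mul (h₁ t) (h₂ t) (mulHeight₁_nonneg _) (by positivity)
      _ = _ := by rw [pow_add, pow_add]; ring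
  have h4 := Real.log_le_log (hpos _) h3
  rw [Real.log_mul (by positivity) (pow_ne_zero _ (hpos t).ne'), Real.log_pow, Real.log_pow] at h4
  have h5 : Real.log 2 ≤ 1 := by
    have := Real.log_two_lt_d9
    linarith
  have h6 : 0 ≤ Real.log (mulHeight₁ t) := Real.log_nonneg (one_le_mulHeight₁ t)
  refine h4.trans ?_
  push_cast
  have h7 : ((C₁ : ℝ) + C₂) * Real.log 2 ≤ ((C₁ : ℝ) + C₂) * 1 :=
    mul_le_mul_of_nonneg_left h5 (by positivity)
  have h8 : (0 : ℝ) ≤ (C₁ + C₂ : ℝ) * Real.log (mulHeight₁ t) := by positivity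
  have h9 : (0 : ℝ) ≤ (k₁ + k₂ : ℝ) := by positivity
  nlinarith

end

/-- absorbing constants -/
lemma absorb (A κ : ℕ) : ∃ κ' : ℕ, ∀ R : ℝ, 2 ≤ R → A * R ^ κ ≤ R ^ κ' := by
  refine ⟨A + κ, fun R hR => ?_⟩
  rw [pow_add]
  apply mul_le_mul_of_nonneg_right _ (by positivity)
  calc (A : ℝ) ≤ 2 ^ A := by exact_mod_cast Nat.lt_two_pow_self.le
    _ ≤ R ^ A := pow_le_pow_left₀ (by norm_num) hR _

section
variable {K : Type} [Field K] [NumberField K]

/-- **the bound if all but a few pole orders are divisible by `n`** -/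
theorem few (F G : K[X]) (hcop : IsCoprime F G) (hG : G ≠ 0) (L : Type) [Field L]
    [NumberField L] [Algebra K L] (S : Set (HeightOneSpectrum (𝓞 K))) (hS : S.Finite) (M B s : ℕ)
    (hB : 1 ≤ B) :
    ∃ κ : ℕ, ∀ (n : ℕ) (t : K) (a : Option L) (ψ : L →+* ℂ) (T : Finset (HeightOneSpectrum (𝓞 K))),
      T.card ≤ s → TwoPoles F G (ψ.comp (algebraMap K L)) (a.map ψ) →
      NearL ψ M t a → G.eval t ≠ 0 →
      (∀ v ∉ S, v ∉ T → (adv K v).v (F.eval t / G.eval t) < 0 →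
        (n : ℤ) ∣ B * (adv K v).v (F.eval t / G.eval t)) →
      min (n : ℝ) (Real.log (mulHeight₁ t)) ≤
        (2 + Real.log (hp a) + ∑ v ∈ T, Real.log (Ideal.absNorm v.asIdeal)) ^ κ := by
  obtain ⟨κ, hκ⟩ := places F G hcop hG L S hS M B s hB
  refine ⟨κ, ?_⟩
  intro n t a ψ T hT htwo hnear hGt hd
  have h1 := hκ n t a ψ T hT htwo hnear hGt
  have h2 : cnt S T n B (F.eval t / G.eval t) = 0 := by
    unfold cnt
    apply finsum_mem_eq_zero_of_forall_eq_zero
    rintro v ⟨hvS, hvT, hv⟩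
    have h3 := dist_le n (B * (adv K v).v (F.eval t / G.eval t)) 0 (by
      rw [add_zero]
      exact hd v hvS hvT hv)
    rw [abs_zero] at h3
    have h4 : dist n (B * (adv K v).v (F.eval t / G.eval t)) = 0 := by omega
    rw [h4, Nat.cast_zero, zero_mul]
  rwa [h2, add_zero] at h1

end

end Run7.h197.V
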