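import Pool.Agent.Run7.h197.V.Final

/-!
Counting functions.
-/

set_option autoImplicit false

namespace Run7.h197.V

open NumberField IsDedekindDomain Finset Pool.Agent.H691R3 Pool.Agent.Y673.Loc Pool.Agent.Y673.Cnt
open Run7.h197.ST Height Pool.Agent.H951R3.V Run7.h197.Q Pool.Agent.Y673.Loc.ZV
open Pool.Agent.K4H56.IF Run7.h197.FMS Run7.h197.N Polynomial Pool.Agent.TH876.Loc

section
variable {K : Type} [Field K] [NumberField K]

lemma val_natCast_mul (v : HeightOneSpectrum (𝓞 K)) {a b : ℕ} (ha : a ≠ 0) (hb : b ≠ 0) :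
    (adv K v).v ((a * b : ℕ) : K) = (adv K v).v (a : K) + (adv K v).v (b : K) := by
  rw [Nat.cast_mul, (adv K v).mul' _ _ (Nat.cast_ne_zero.2 ha) (Nat.cast_ne_zero.2 hb)]

lemma val_prod_nat (v : HeightOneSpectrum (𝓞 K)) {ι : Type} (s : Finset ι) (f : ι → ℕ)
    (h : ∀ i ∈ s, f i ≠ 0) : (adv K v).v ((∏ i ∈ s, f i : ℕ) : K) = ∑ i ∈ s, (adv K v).v (f i : K) := by
  classical
  induction s using Finset.induction_on with
  | empty =>
    rw [Finset.prod_empty, Finset.sum_empty, Nat.cast_one]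
    show -WithZero.log (v.valuation K 1) = 0
    rw [map_one, WithZero.log_one, neg_zero]
  | insert a s ha ih =>
    have h1 : ∏ i ∈ s, f i ≠ 0 := Finset.prod_ne_zero_iff.2 fun i hi => h i (Finset.mem_insert_of_mem hi)
    rw [Finset.prod_insert ha, Finset.sum_insert ha,
      val_natCast_mul v (h a (Finset.mem_insert_self a s)) h1,
      ih fun i hi => h i (Finset.mem_insert_of_mem hi)]

lemma absNorm_pos' (v : HeightOneSpectrum (𝓞 K)) : Ideal.absNorm v.asIdeal ≠ 0 := by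
  have := Pool.Agent.H691R3.two_le_Nv v
  intro h0
  unfold Pool.Agent.H691R3.Nv at this
  rw [h0, Nat.cast_zero] at this
  linarith

lemma one_le_val_pv (v : HeightOneSpectrum (𝓞 K)) : 1 ≤ (adv K v).v (pv v : K) := by
  have h0 : (pv v : 𝓞 K) ≠ 0 := Nat.cast_ne_zero.2 (pv_prime v).ne_zero
  have h2 := (le_adv_iff K v (pv v : 𝓞 K) h0 1).2 (by rw [pow_one]; exact pv_mem v)
  rw [map_natCast] at h2
  exact_mod_cast h2

lemma one_le_val_absNorm (v : HeightOneSpectrum (𝓞 K)) :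
    1 ≤ (adv K v).v (Ideal.absNorm v.asIdeal : K) := by
  obtain ⟨k, hk⟩ := pv_dvd v
  have hk0 : k ≠ 0 := by
    rintro rfl
    exact absNorm_pos' v (by rw [hk, mul_zero])
  rw [hk, val_natCast_mul v (pv_prime v).ne_zero hk0]
  have h1 := one_le_val_pv v
  have h2 := val_nat_nonneg v k hk0
  omega

/-- the weighted count of the part of the poles of `j` that is not divisible by `n` -/
noncomputable def cnt (S : Set (HeightOneSpectrum (𝓞 K))) (T : Finset (HeightOneSpectrum (𝓞 K)))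
    (n B : ℕ) (j : K) : ℝ :=
  ∑ᶠ v ∈ {v : HeightOneSpectrum (𝓞 K) | v ∉ S ∧ v ∉ T ∧ (adv K v).v j < 0},
    (dist n (B * (adv K v).v j) : ℝ) * Real.log (Ideal.absNorm v.asIdeal)

lemma poles_finite (j : K) : {v : HeightOneSpectrum (𝓞 K) | (adv K v).v j < 0}.Finite := by
  by_cases hj : j = 0
  · subst hj
    refine Set.finite_empty.subset ?_
    intro v hv
    have : (adv K v).v (0 : K) < 0 := hv
    rw [adv_zero] at this
    exact absurd this (lt_irrefl _)
  · refine (supp_finite hj).subset ?_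
    intro v hv
    have : (adv K v).v j < 0 := hv
    exact this.ne

lemma log_absNorm_nonneg (v : HeightOneSpectrum (𝓞 K)) :
    0 ≤ Real.log (Ideal.absNorm v.asIdeal) := Real.log_natCast_nonneg _

/-- the natural numbers `m`, `N` -/
theorem exists_mN (S : Set (HeightOneSpectrum (𝓞 K))) (T : Finset (HeightOneSpectrum (𝓞 K)))
    (n B : ℕ) (j : K) : ∃ m N : ℕ, m ≠ 0 ∧ N ≠ 0 ∧ N.primeFactors.card ≤ T.card ∧
      Real.log m = cnt S T n B j ∧ Real.log N ≤ ∑ v ∈ T, Real.log (Ideal.absNorm v.asIdeal) ∧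
      PoleV S n m N B j := by
  classical
  have hfin : {v : HeightOneSpectrum (𝓞 K) | v ∉ S ∧ v ∉ T ∧ (adv K v).v j < 0}.Finite :=
    (poles_finite j).subset fun v hv => hv.2.2
  obtain ⟨W, hW⟩ : ∃ W, W = hfin.toFinset := ⟨_, rfl⟩
  have hWm : ∀ v, v ∈ W ↔ v ∉ S ∧ v ∉ T ∧ (adv K v).v j < 0 := by
    intro v
    rw [hW, Set.Finite.mem_toFinset]
    exact Iff.rfl
  let f : HeightOneSpectrum (𝓞 K) → ℕ := fun v =>
    Ideal.absNorm v.asIdeal ^ dist n (B * (adv K v).v j)
  have hf : ∀ v ∈ W, f v ≠ 0 := fun v _ => pow_ne_zero _ (absNorm_pos' v)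
  have hpv : ∀ v ∈ T, pv v ≠ 0 := fun v _ => (pv_prime v).ne_zero
  refine ⟨∏ v ∈ W, f v, ∏ v ∈ T, pv v, Finset.prod_ne_zero_iff.2 hf, Finset.prod_ne_zero_iff.2 hpv,
    ?_, ?_, ?_, ?_⟩
  · have h1 : (∏ v ∈ T, pv v).primeFactors ⊆ T.image pv := by
      intro p hp
      rw [Nat.mem_primeFactors] at hp
      obtain ⟨v, hv, hpv'⟩ := (hp.1.prime.dvd_finsetProd_iff _).1 hp.2.1
      rw [Nat.prime_dvd_prime_iff_eq hp.1 (pv_prime v)] at hpv'
      exact Finset.mem_image.2 ⟨v, hv, hpv'.symm⟩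
    exact (Finset.card_le_card h1).trans Finset.card_image_le
  · unfold cnt
    rw [finsum_mem_eq_finite_toFinset_sum _ hfin, ← hW, Nat.cast_prod, Real.log_prod]
    · refine Finset.sum_congr rfl fun v _ => ?_
      show Real.log ((Ideal.absNorm v.asIdeal ^ dist n (B * (adv K v).v j) : ℕ) : ℝ) = _
      rw [Nat.cast_pow, Real.log_pow]
    · intro v hv
      exact Nat.cast_ne_zero.2 (hf v hv)
  · rw [Nat.cast_prod, Real.log_prod]
    · refine Finset.sum_le_sum fun v _ => ?_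
      apply Real.log_le_log
      · exact_mod_cast (pv_prime v).pos
      · exact_mod_cast pv_le v
    · intro v hv
      exact Nat.cast_ne_zero.2 (hpv v hv)
  · intro v hvS hN hneg
    have hvT : v ∉ T := by
      intro hvT
      rw [val_prod_nat v T pv hpv] at hN
      have h1 : (adv K v).v (pv v : K) ≤ ∑ w ∈ T, (adv K v).v (pv w : K) :=
        Finset.single_le_sum (f := fun w => (adv K v).v (pv w : K))
          (fun w _ => val_nat_nonneg v _ (pv_prime w).ne_zero) hvT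
      have h2 := one_le_val_pv v
      omega
    have hvW : v ∈ W := (hWm v).2 ⟨hvS, hvT, hneg⟩
    obtain ⟨r, hr1, hr2⟩ := dist_spec n (B * (adv K v).v j)
    refine ⟨r, ?_, hr2⟩
    rw [← hr1, val_prod_nat v W f hf]
    have h1 : (adv K v).v (f v : K) ≤ ∑ w ∈ W, (adv K v).v (f w : K) :=
      Finset.single_le_sum (f := fun w => (adv K v).v (f w : K))
        (fun w hw => val_nat_nonneg v _ (hf w hw)) hvW
    refine le_trans ?_ h1
    show _ ≤ (adv K v).v ((Ideal.absNorm v.asIdeal ^ dist n (B * (adv K v).v j) : ℕ) : K)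
    rw [Nat.cast_pow, ((E_of_ne (w := adv K v) (Nat.cast_ne_zero.2 (absNorm_pos' v))).pow _).2]
    have h2 := one_le_val_absNorm v
    nlinarith [Int.natCast_nonneg (dist n (B * (adv K v).v j))]

lemma cnt_nonneg (S : Set (HeightOneSpectrum (𝓞 K))) (T : Finset (HeightOneSpectrum (𝓞 K)))
    (n B : ℕ) (j : K) : 0 ≤ cnt S T n B j :=
  finsum_nonneg fun v => finsum_nonneg fun _ =>
    mul_nonneg (Nat.cast_nonneg _) (log_absNorm_nonneg v)

/-- **the bound by counting functions** -/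
theorem places (F G : K[X]) (hcop : IsCoprime F G) (hG : G ≠ 0) (L : Type) [Field L]
    [NumberField L] [Algebra K L] (S : Set (HeightOneSpectrum (𝓞 K))) (hS : S.Finite) (M B s : ℕ)
    (hB : 1 ≤ B) :
    ∃ κ : ℕ, ∀ (n : ℕ) (t : K) (a : Option L) (ψ : L →+* ℂ) (T : Finset (HeightOneSpectrum (𝓞 K))),
      T.card ≤ s → TwoPoles F G (ψ.comp (algebraMap K L)) (a.map ψ) →
      NearL ψ M t a → G.eval t ≠ 0 →
      min (n : ℝ) (Real.log (mulHeight₁ t)) ≤
        (2 + Real.log (hp a) + ∑ v ∈ T, Real.log (Ideal.absNorm v.asIdeal) +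
          cnt S T n B (F.eval t / G.eval t)) ^ κ := by
  obtain ⟨κ, hκ⟩ := final F G hcop hG L S hS M B s hB
  refine ⟨κ, ?_⟩
  intro n t a ψ T hT htwo hnear hGt
  obtain ⟨m, N, hm, hN, hNc, hlm, hlN, hV⟩ := exists_mN S T n B (F.eval t / G.eval t)
  refine (hκ n m N t a ψ hm hN (hNc.trans hT) htwo hnear hGt hV).trans ?_
  have l1 : 0 ≤ Real.log m := Real.log_natCast_nonneg m
  have l2 : 0 ≤ Real.log N := Real.log_natCast_nonneg N
  have l3 : 0 ≤ Real.log (hp a) := Real.log_nonneg (one_le_hp a)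
  apply pow_le_pow_left₀ (by linarith)
  rw [← hlm]
  linarith

end

end Run7.h197.V
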