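import Pool.Agent.Run7.h197.V.Arch
import Pool.Agent.Run7.h197.Q.Param
import Pool.Agent.TH876.Sums

/-!
Elements of a number field whose valuations are divisible by `n` outside of a finite set, up to a
natural number `m` and up to the prime factors of a natural number `N`.
-/

set_option autoImplicit false

namespace Run7.h197.V

open NumberField IsDedekindDomain Finset Pool.Agent.H691R3 Pool.Agent.Y673.Loc Pool.Agent.Y673.Cnt
open Run7.h197.ST Height Pool.Agent.H951R3.V Pool.Agent.TH876.Loc Run7.h197.Q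

variable {K : Type} [Field K] [NumberField K]

lemma logHeight_nat (m : ℕ) (hm : m ≠ 0) : logHeight₁ (m : K) = Module.finrank ℚ K * Real.log m := by
  have : NeZero m := ⟨hm⟩
  have h1 := mulHeight₁_ext (K := ℚ) K (m : ℚ)
  rw [Rat.mulHeight₁_natCast, map_natCast] at h1
  rw [logHeight₁_eq_log_mulHeight₁, h1, Real.log_pow]

/-- the valuation of a natural number -/
lemma val_nat_nonneg (v : HeightOneSpectrum (𝓞 K)) (m : ℕ) (hm : m ≠ 0) :
    0 ≤ (adv K v).v (m : K) := by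
  have h := adv_nonneg (K := K) v (m : 𝓞 K) (Nat.cast_ne_zero.2 hm)
  rwa [map_natCast] at h

lemma sum_val_le (m : ℕ) (hm : m ≠ 0) (F : Finset (HeightOneSpectrum (𝓞 K))) :
    ∑ v ∈ F, ((adv K v).v (m : K) : ℝ) * ell v ≤ 2 * (Module.finrank ℚ K * Real.log m) := by
  have h1 := sum_abs_log_le (K := K) (Nat.cast_ne_zero.2 hm : (m : K) ≠ 0) F
  rw [logHeight_nat m hm] at h1
  refine le_trans (Finset.sum_le_sum fun v _ => ?_) h1
  rw [log_fv_adv v (Nat.cast_ne_zero.2 hm)]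
  apply mul_le_mul_of_nonneg_right (le_abs_self _) (ell_pos v).le

lemma pv_dvd_of (v : HeightOneSpectrum (𝓞 K)) (N : ℕ) (hN : N ≠ 0)
    (h : (adv K v).v (N : K) ≠ 0) : pv v ∣ N := by
  have h1 : 1 ≤ (adv K v).v (N : K) := by
    have := val_nat_nonneg v N hN
    omega
  have h2 := le_adv_iff (K := K) v (N : 𝓞 K) (Nat.cast_ne_zero.2 hN) 1
  rw [map_natCast, pow_one] at h2
  have h3 := h2.1 (by exact_mod_cast h1)
  have h4 : ((N : ℤ) : 𝓞 K) ∈ v.asIdeal := by
    rw [Int.cast_natCast]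
    exact h3
  rw [Int.cast_mem_ideal_iff] at h4
  exact Int.natCast_dvd_natCast.1 h4

lemma card_places (N : ℕ) (hN : N ≠ 0) (R : Finset (HeightOneSpectrum (𝓞 K)))
    (h : ∀ v ∈ R, (adv K v).v (N : K) ≠ 0) :
    R.card ≤ Module.finrank ℚ K * N.primeFactors.card := by
  classical
  calc R.card ≤ Module.finrank ℚ K * (R.image pv).card := by
        refine Finset.card_le_mul_card_image R _ ?_
        intro p _
        exact card_above p _ fun v hv => (Finset.mem_filter.1 hv).2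
    _ ≤ _ := by
        apply Nat.mul_le_mul_left
        apply Finset.card_le_card
        intro p hp
        obtain ⟨v, hv, rfl⟩ := Finset.mem_image.1 hp
        exact Nat.mem_primeFactors.2 ⟨pv_prime v, pv_dvd_of v N hN (h v hv), hN⟩

lemma log_Nv_le (v : HeightOneSpectrum (𝓞 K)) (N : ℕ) (hN : N ≠ 0)
    (h : (adv K v).v (N : K) ≠ 0) : ell v ≤ 2 * (Module.finrank ℚ K * Real.log N) := by
  have h1 := sum_val_le (K := K) N hN {v}
  rw [Finset.sum_singleton] at h1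
  have h2 : 1 ≤ (adv K v).v (N : K) := by
    have := val_nat_nonneg v N hN
    omega
  have h3 : (1 : ℝ) ≤ ((adv K v).v (N : K) : ℝ) := by exact_mod_cast h2
  have h4 := ell_pos v
  nlinarith

lemma log_le_of_two_pow {m g : ℕ} (hm : m ≠ 0) (h : m ≤ 2 ^ g) : Real.log m ≤ g * Real.log 2 := by
  rw [← Real.log_pow]
  apply Real.log_le_log
  · exact_mod_cast Nat.pos_of_ne_zero hm
  · exact_mod_cast h

/-- `x` is, outside of `S` and of the prime factors of `N`, an `n`-th power up to divisors of `m` -/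
def Close (S : Set (HeightOneSpectrum (𝓞 K))) (n m N : ℕ) (x : K) : Prop :=
  ∀ v ∉ S, (adv K v).v (N : K) = 0 → ∃ r : ℤ, |r| ≤ (adv K v).v (m : K) ∧
    (n : ℤ) ∣ (adv K v).v x + r

/-- **representation** -/
theorem repV (S : Finset (HeightOneSpectrum (𝓞 K))) (s : ℕ) :
    ∃ (h B m₀ : ℕ), 1 ≤ h ∧ ∀ (g n m N : ℕ), 1 ≤ g → 2 ≤ n → m ≠ 0 → N ≠ 0 → m ≤ 2 ^ g → N ≤ 2 ^ g →
      N.primeFactors.card ≤ s → ∀ x : K, x ≠ 0 → Close (S : Set (HeightOneSpectrum (𝓞 K))) n m N x →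
      ∃ (J : Type) (_ : Fintype J) (γ : J → 𝓞 K) (e e' : J → ℕ) (Y : K), Fintype.card J = m₀ ∧
        (∀ j, γ j ≠ 0) ∧ (∀ (ψ : K →+* ℂ) j, ‖ψ (γ j : K)‖ ≤ 2 ^ (B * g)) ∧ Y ≠ 0 ∧
        (∀ j, e j < n) ∧ (∀ j, e' j < n) ∧
        x ^ h * (∏ j, (γ j : K) ^ (e' j)) = (∏ j, (γ j : K) ^ (e j)) * Y ^ n := by
  classical
  obtain ⟨h, r, C, ε, gg, hh, hC, hε, hg1, hg2, hεC, hgC, -, hrep⟩ := Pool.Agent.Y496.gensC K
  obtain ⟨D, hD⟩ : ∃ D, D = Module.finrank ℚ K := ⟨_, rfl⟩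
  have hgg0 : ∀ v, (gg v : K) ≠ 0 := by
    intro v h0
    have h1 := hg1 v
    rw [h0, map_zero] at h1
    have h3 := two_le_Nv v
    have h2 : 0 < (Nv v)⁻¹ ^ h := pow_pos (inv_pos.2 (by linarith)) _
    rw [← h1] at h2
    exact lt_irrefl _ h2
  have hgg0' : ∀ v, gg v ≠ 0 := fun v => RingOfIntegers.coe_ne_zero_iff.mp (hgg0 v)
  have hε0 : ∀ j, (ε j : K) ≠ 0 := by
    intro j
    exact RingOfIntegers.coe_ne_zero_iff.mpr (hε j).ne_zero
  obtain ⟨c, hc⟩ := exists_two_pow C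
  -- the sizes of the generators
  have hhouse : ∀ (ψ : K →+* ℂ) (y : K), ‖ψ y‖ ≤ house y := fun ψ y => norm_embedding_le_house y ψ
  have hNv2 : ∀ v : HeightOneSpectrum (𝓞 K), (2 : ℝ) ≤ Nv v := two_le_Nv
  have hgsize : ∀ (ψ : K →+* ℂ) v, ‖ψ (gg v : K)‖ ≤ Real.exp ((h + c : ℕ) * ell v) := by
    intro ψ v
    have e1 : Real.exp (ell v) = Nv v := Real.exp_log (by linarith [hNv2 v])
    rw [Real.exp_nat_mul, e1, pow_add]
    calc ‖ψ (gg v : K)‖ ≤ house (gg v : K) := hhouse _ _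
      _ ≤ C * Nv v ^ h := hgC v
      _ ≤ 2 ^ c * Nv v ^ h := by
          apply mul_le_mul_of_nonneg_right hc
          exact pow_nonneg (by linarith [hNv2 v]) _
      _ ≤ Nv v ^ c * Nv v ^ h := by
          apply mul_le_mul_of_nonneg_right _ (pow_nonneg (by linarith [hNv2 v]) _)
          exact pow_le_pow_left₀ (by norm_num) (hNv2 v) _
      _ = _ := mul_comm _ _
  -- a bound for the fixed generators
  obtain ⟨b₀, hb₀⟩ := exists_two_pow (∑ v ∈ S, C * Nv v ^ h)
  have hb₀' : ∀ v ∈ S, ∀ ψ : K →+* ℂ, ‖ψ (gg v : K)‖ ≤ 2 ^ b₀ := by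
    intro v hv ψ
    calc ‖ψ (gg v : K)‖ ≤ house (gg v : K) := hhouse _ _
      _ ≤ C * Nv v ^ h := hgC v
      _ ≤ ∑ v ∈ S, C * Nv v ^ h := Finset.single_le_sum (f := fun v => C * Nv v ^ h)
          (fun v _ => mul_nonneg (by linarith) (pow_nonneg (by linarith [hNv2 v]) _)) hv
      _ ≤ _ := hb₀
  obtain ⟨B, hB⟩ : ∃ B, B = c + b₀ + 2 * D * (h + c) := ⟨_, rfl⟩
  refine ⟨h, B, r + S.card + s * D + 2, hh, ?_⟩
  intro g n m N hg hn hm hN hmg hNg hNs x hx0 hxS
  have hn1 : 1 ≤ n := by omega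
  have hn0 : (n : ℤ) ≠ 0 := by exact_mod_cast (by omega : n ≠ 0)
  have hnpos : (0 : ℤ) < n := by exact_mod_cast (by omega : 0 < n)
  have hmK : (m : K) ≠ 0 := Nat.cast_ne_zero.2 hm
  have hNK : (N : K) ≠ 0 := Nat.cast_ne_zero.2 hN
  let a : HeightOneSpectrum (𝓞 K) → ℤ := fun v => (adv K v).v x
  let R : Finset (HeightOneSpectrum (𝓞 K)) := (adv_finite hNK).toFinset \ S
  have hRmem : ∀ v, v ∈ R ↔ (adv K v).v (N : K) ≠ 0 ∧ v ∉ S := by
    intro v
    simp only [R, Finset.mem_sdiff, Set.Finite.mem_toFinset, Set.mem_ofPred_eq]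
  have hRcard : R.card ≤ s * D := by
    have h1 := card_places (K := K) N hN R (fun v hv => ((hRmem v).1 hv).1)
    calc R.card ≤ Module.finrank ℚ K * N.primeFactors.card := h1
      _ ≤ D * s := by rw [← hD]; exact Nat.mul_le_mul_left _ hNs
      _ = _ := mul_comm _ _
  let T₀ : Finset (HeightOneSpectrum (𝓞 K)) :=
    ((adv_finite hx0).toFinset ∪ (adv_finite hmK).toFinset) \ (S ∪ R)
  have hT₀S : ∀ v ∈ T₀, v ∉ S ∧ (adv K v).v (N : K) = 0 := by
    intro v hv
    have h1 := (Finset.mem_sdiff.1 hv).2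
    rw [Finset.mem_union, not_or, hRmem] at h1
    refine ⟨h1.1, ?_⟩
    by_contra hcon
    exact h1.2 ⟨hcon, h1.1⟩
  choose! ρ hρ1 hρ2 using fun v (hv : v ∈ T₀) => hxS v (hT₀S v hv).1 (hT₀S v hv).2
  have hdisj1 : Disjoint S R := by
    rw [Finset.disjoint_left]
    intro v hv hv'
    exact ((hRmem v).1 hv').2 hv
  have hdisj2 : Disjoint (S ∪ R) T₀ := Finset.disjoint_sdiff
  obtain ⟨b, -, hb⟩ := hrep ((S ∪ R) ∪ T₀) a x (∑ w : InfinitePlace K, |Real.log (w x)| +
    ∑ v ∈ ((S ∪ R) ∪ T₀), |(a v : ℝ)| * Real.log (Nv v)) hx0 (by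
      intro v hv
      rw [fv_eq_one_iff v hx0]
      by_contra hne
      apply hv
      by_cases h1 : v ∈ S ∪ R
      · exact Finset.mem_union_left _ h1
      · apply Finset.mem_union_right
        rw [Finset.mem_sdiff]
        refine ⟨Finset.mem_union_left _ ?_, h1⟩
        rw [Set.Finite.mem_toFinset]
        exact hne) (by
      intro v _
      rw [fv_adv v hx0, inv_zpow']) (by
      intro w
      have h1 : |Real.log (w x)| ≤ ∑ w : InfinitePlace K, |Real.log (w x)| :=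
        Finset.single_le_sum (f := fun w : InfinitePlace K => |Real.log (w x)|)
          (fun _ _ => abs_nonneg _) (Finset.mem_univ w)
      have h2 : 0 ≤ ∑ v ∈ ((S ∪ R) ∪ T₀), |(a v : ℝ)| * Real.log (Nv v) :=
        Finset.sum_nonneg (fun v _ => mul_nonneg (abs_nonneg _) (log_Nv_pos v).le)
      linarith) (by
      have h2 : 0 ≤ ∑ w : InfinitePlace K, |Real.log (w x)| :=
        Finset.sum_nonneg (fun _ _ => abs_nonneg _)
      linarith)
  -- the two integers composed of small primes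
  let A₁ : 𝓞 K := ∏ v ∈ T₀, gg v ^ (-ρ v).toNat
  let A₂ : 𝓞 K := ∏ v ∈ T₀, gg v ^ (ρ v).toNat
  have hA₁0 : A₁ ≠ 0 := Finset.prod_ne_zero_iff.2 fun v _ => pow_ne_zero _ (hgg0' v)
  have hA₂0 : A₂ ≠ 0 := Finset.prod_ne_zero_iff.2 fun v _ => pow_ne_zero _ (hgg0' v)
  have hl2 : 0 < Real.log 2 := Real.log_pos (by norm_num)
  have hexpB : ∀ k : ℕ, Real.exp ((h + c : ℕ) * (2 * (D * (g * Real.log 2)))) ≤ 2 ^ (B * g) := by
    intro _
    rw [← Real.rpow_natCast 2 (B * g), Real.rpow_def_of_pos (by norm_num)]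
    apply Real.exp_le_exp.2
    have h1 : ((h + c : ℕ) : ℝ) * (2 * (D * (g * Real.log 2))) =
        Real.log 2 * ((2 * D * (h + c) * g : ℕ) : ℝ) := by
      push_cast
      ring
    rw [h1]
    apply mul_le_mul_of_nonneg_left _ hl2.le
    have h2 : 2 * D * (h + c) * g ≤ B * g := by
      apply Nat.mul_le_mul_right
      rw [hB]
      exact Nat.le_add_left _ _
    exact_mod_cast h2
  have hAsize : ∀ (f : HeightOneSpectrum (𝓞 K) → ℕ), (∀ v ∈ T₀, (f v : ℤ) ≤ |ρ v|) →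
      ∀ ψ : K →+* ℂ, ‖ψ ((∏ v ∈ T₀, gg v ^ (f v) : 𝓞 K) : K)‖ ≤ 2 ^ (B * g) := by
    intro f hf ψ
    have h0 : ((∏ v ∈ T₀, gg v ^ (f v) : 𝓞 K) : K) = ∏ v ∈ T₀, (gg v : K) ^ (f v) := by
      show algebraMap (𝓞 K) K _ = _
      rw [map_prod]
      exact Finset.prod_congr rfl fun v _ => map_pow _ _ _
    rw [h0, map_prod, norm_prod]
    have h1 : ∏ v ∈ T₀, ‖ψ ((gg v : K) ^ (f v))‖ ≤
        ∏ v ∈ T₀, Real.exp ((h + c : ℕ) * (((adv K v).v (m : K) : ℝ) * ell v)) := by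
      apply Finset.prod_le_prod (fun _ _ => norm_nonneg _)
      intro v hv
      rw [map_pow, norm_pow]
      have e1 : (f v : ℝ) ≤ ((adv K v).v (m : K) : ℝ) := by
        exact_mod_cast (hf v hv).trans (hρ1 v hv)
      have e2 := ell_pos v
      calc ‖ψ (gg v : K)‖ ^ (f v) ≤ (Real.exp ((h + c : ℕ) * ell v)) ^ (f v) :=
            pow_le_pow_left₀ (norm_nonneg _) (hgsize ψ v) _
        _ = Real.exp ((f v : ℝ) * ((h + c : ℕ) * ell v)) := (Real.exp_nat_mul _ _).symm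
        _ ≤ _ := by
            apply Real.exp_le_exp.2
            have e3 : (0 : ℝ) ≤ ((h + c : ℕ) : ℝ) * ell v := by positivity
            calc (f v : ℝ) * ((h + c : ℕ) * ell v) ≤
                  ((adv K v).v (m : K) : ℝ) * ((h + c : ℕ) * ell v) :=
                  mul_le_mul_of_nonneg_right e1 e3
              _ = _ := by ring
    refine h1.trans ?_
    rw [← Real.exp_sum, ← Finset.mul_sum]
    refine le_trans (Real.exp_le_exp.2 ?_) (hexpB 0)
    apply mul_le_mul_of_nonneg_left _ (Nat.cast_nonneg _)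
    refine (sum_val_le m hm T₀).trans ?_
    rw [← hD]
    have h2 := log_le_of_two_pow hm hmg
    have h3 : (0 : ℝ) ≤ D := Nat.cast_nonneg _
    have h4 := mul_le_mul_of_nonneg_left h2 h3
    linarith
  -- the index set
  let J : Type := ((Fin r ⊕ {v // v ∈ S}) ⊕ ({v // v ∈ R} ⊕ Fin (s * D - R.card))) ⊕ Bool
  let γ : J → 𝓞 K := Sum.elim (Sum.elim (Sum.elim ε (fun v => gg v.1))
    (Sum.elim (fun v => gg v.1) (fun _ => 1))) (fun i => cond i A₁ A₂)
  let e : J → ℕ := Sum.elim (Sum.elim (Sum.elim (fun j => (b j % n).toNat)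
    (fun v => (a v.1 % n).toNat)) (Sum.elim (fun v => (a v.1 % n).toNat) (fun _ => 0)))
    (fun i => cond i 1 0)
  let e' : J → ℕ := Sum.elim (fun _ => 0) (fun i => cond i 0 1)
  refine ⟨J, inferInstance, γ, e, e', (∏ j, (ε j : K) ^ (b j / n)) * ((∏ v ∈ S, (gg v : K) ^ (a v / n)) *
    (∏ v ∈ R, (gg v : K) ^ (a v / n)) * ∏ v ∈ T₀, (gg v : K) ^ ((a v + ρ v) / n)), ?_, ?_, ?_, ?_, ?_,
    ?_, ?_⟩
  · simp only [J, Fintype.card_sum, Fintype.card_fin, Fintype.card_coe, Fintype.card_bool]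
    omega
  · rintro (((j | v) | (v | i)) | (_ | _))
    · exact (hε j).ne_zero
    · exact hgg0' v.1
    · exact hgg0' v.1
    · exact one_ne_zero
    · exact hA₂0
    · exact hA₁0
  · have hBg : ∀ k ≤ B, (2 : ℝ) ^ k ≤ 2 ^ (B * g) := by
      intro k hk
      apply pow_le_pow_right₀ (by norm_num)
      exact hk.trans (Nat.le_mul_of_pos_right _ (by omega))
    rintro ψ (((j | v) | (v | i)) | (_ | _))
    · show ‖ψ (ε j : K)‖ ≤ _
      exact ((hhouse _ _).trans ((hεC j).trans hc)).trans (hBg c (by omega))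
    · show ‖ψ (gg v.1 : K)‖ ≤ _
      exact (hb₀' v.1 v.2 ψ).trans (hBg b₀ (by omega))
    · show ‖ψ (gg v.1 : K)‖ ≤ _
      refine (hgsize ψ v.1).trans (le_trans (Real.exp_le_exp.2 ?_) (hexpB 0))
      apply mul_le_mul_of_nonneg_left _ (Nat.cast_nonneg _)
      refine (log_Nv_le v.1 N hN ((hRmem v.1).1 v.2).1).trans ?_
      rw [← hD]
      have h2 := log_le_of_two_pow hN hNg
      have h3 : (0 : ℝ) ≤ D := Nat.cast_nonneg _
      have h4 := mul_le_mul_of_nonneg_left h2 h3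
      linarith
    · show ‖ψ ((1 : 𝓞 K) : K)‖ ≤ _
      have h1 : ((1 : 𝓞 K) : K) = 1 := map_one _
      rw [h1, map_one, norm_one]
      exact one_le_pow₀ (by norm_num)
    · exact hAsize (fun v => (ρ v).toNat) (fun v _ => by
        rw [Int.toNat_eq_max]
        exact max_le (le_abs_self _) (abs_nonneg _)) ψ
    · exact hAsize (fun v => (-ρ v).toNat) (fun v _ => by
        rw [Int.toNat_eq_max]
        exact max_le (neg_le_abs _) (abs_nonneg _)) ψ
  · apply mul_ne_zero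
    · exact Finset.prod_ne_zero_iff.mpr (fun j _ => zpow_ne_zero _ (hε0 j))
    · apply mul_ne_zero
      · apply mul_ne_zero
        · exact Finset.prod_ne_zero_iff.mpr (fun v _ => zpow_ne_zero _ (hgg0 v))
        · exact Finset.prod_ne_zero_iff.mpr (fun v _ => zpow_ne_zero _ (hgg0 v))
      · exact Finset.prod_ne_zero_iff.mpr (fun v _ => zpow_ne_zero _ (hgg0 v))
  · have hmod : ∀ k : ℤ, (k % n).toNat < n := fun k => by
      have h1 := Int.emod_nonneg k hn0
      have h2 := Int.emod_lt_of_pos k hnpos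
      omega
    rintro (((j | v) | (v | i)) | (_ | _))
    · exact hmod _
    · exact hmod _
    · exact hmod _
    · show 0 < n; omega
    · show 0 < n; omega
    · show 1 < n; omega
  · rintro (j | (_ | _))
    · show 0 < n; omega
    · show 1 < n; omega
    · show 0 < n; omega
  · have hA₁K : (A₁ : K) = ∏ v ∈ T₀, (gg v : K) ^ (-ρ v).toNat := by
      show algebraMap (𝓞 K) K _ = _
      rw [map_prod]
      exact Finset.prod_congr rfl fun v _ => map_pow _ _ _
    have hA₂K : (A₂ : K) = ∏ v ∈ T₀, (gg v : K) ^ (ρ v).toNat := by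
      show algebraMap (𝓞 K) K _ = _
      rw [map_prod]
      exact Finset.prod_congr rfl fun v _ => map_pow _ _ _
    have e1 : ∏ j, (ε j : K) ^ (b j) = (∏ j, (ε j : K) ^ ((b j % n).toNat)) *
        (∏ j, (ε j : K) ^ (b j / n)) ^ n := by
      rw [← Finset.prod_pow, ← Finset.prod_mul_distrib]
      exact Finset.prod_congr rfl (fun j _ => zpow_split' _ (hε0 j) _ n hn1)
    have e2 : ∀ T : Finset (HeightOneSpectrum (𝓞 K)), ∏ v ∈ T, (gg v : K) ^ (a v) =
        (∏ v ∈ T, (gg v : K) ^ ((a v % n).toNat)) * (∏ v ∈ T, (gg v : K) ^ (a v / n)) ^ n := by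
      intro T
      rw [← Finset.prod_pow, ← Finset.prod_mul_distrib]
      exact Finset.prod_congr rfl (fun v _ => zpow_split' _ (hgg0 v) _ n hn1)
    have e3 : (∏ v ∈ T₀, (gg v : K) ^ (a v)) * (A₂ : K) =
        (A₁ : K) * (∏ v ∈ T₀, (gg v : K) ^ ((a v + ρ v) / n)) ^ n := by
      rw [hA₁K, hA₂K, ← Finset.prod_pow, ← Finset.prod_mul_distrib, ← Finset.prod_mul_distrib]
      refine Finset.prod_congr rfl fun v hv => ?_
      obtain ⟨q, hq⟩ := hρ2 v hv
      have h1 : (a v + ρ v) / n = q := by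
        show ((adv K v).v x + ρ v) / n = q
        rw [hq]
        exact Int.mul_ediv_cancel_left _ hn0
      rw [h1, ← zpow_natCast (gg v : K) (ρ v).toNat, ← zpow_natCast (gg v : K) (-ρ v).toNat,
        ← zpow_natCast ((gg v : K) ^ q) n, ← zpow_mul, ← zpow_add₀ (hgg0 v), ← zpow_add₀ (hgg0 v)]
      congr 1
      have h2 : a v + ρ v = n * q := hq
      have h3 : ((ρ v).toNat : ℤ) - ((-ρ v).toNat : ℤ) = ρ v := Int.toNat_sub_toNat_neg _
      have h4 : q * (n : ℤ) = n * q := mul_comm _ _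
      omega
    have e4 : ∏ j, (γ j : K) ^ (e' j) = (A₂ : K) := by
      rw [Fintype.prod_sum_type]
      simp only [γ, e', Sum.elim_inl, Sum.elim_inr, pow_zero, Finset.prod_const_one, one_mul,
        Fintype.prod_bool, cond_true, cond_false, pow_one]
    have e5 : ∏ j, (γ j : K) ^ (e j) = (∏ j, (ε j : K) ^ ((b j % n).toNat)) *
        (∏ v ∈ S, (gg v : K) ^ ((a v % n).toNat)) * (∏ v ∈ R, (gg v : K) ^ ((a v % n).toNat)) *
        (A₁ : K) := by
      rw [Fintype.prod_sum_type, Fintype.prod_sum_type, Fintype.prod_sum_type, Fintype.prod_sum_type]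
      simp only [γ, e, Sum.elim_inl, Sum.elim_inr, Fintype.prod_bool, cond_true, cond_false, pow_one,
        pow_zero, mul_one, Finset.prod_const_one]
      rw [Finset.prod_coe_sort S (fun v => (gg v : K) ^ ((a v % n).toNat)),
        Finset.prod_coe_sort R (fun v => (gg v : K) ^ ((a v % n).toNat))]
    rw [hb, e4, e5, Finset.prod_union hdisj2, Finset.prod_union hdisj1, e1, e2 S, e2 R, mul_pow, mul_pow,
      mul_pow]
    linear_combination ((∏ j, (ε j : K) ^ ((b j % n).toNat)) *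
        (∏ j, (ε j : K) ^ (b j / n)) ^ n * ((∏ v ∈ S, (gg v : K) ^ ((a v % n).toNat)) *
        (∏ v ∈ S, (gg v : K) ^ (a v / n)) ^ n) * ((∏ v ∈ R, (gg v : K) ^ ((a v % n).toNat)) *
        (∏ v ∈ R, (gg v : K) ^ (a v / n)) ^ n)) * e3

end Run7.h197.V
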