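import Pool.Agent.Run7.h197.V.Far

/-!
Two fixed points of the projective line and a moving target.
-/

set_option autoImplicit false

namespace Run7.h197.V

open NumberField IsDedekindDomain Finset Pool.Agent.H691R3 Pool.Agent.Y673.Loc Pool.Agent.Y673.Cnt
open Run7.h197.ST Height Pool.Agent.H951R3.V Run7.h197.Q Pool.Agent.Y673.Loc.ZV
open Pool.Agent.K4H56.IF

variable {K : Type} [Field K] [NumberField K]

/-- a natural number which is divisible by the numerator and the denominator -/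
lemma exists_bound_val (y : K) (hy : y ≠ 0) : ∃ k : ℕ, k ≠ 0 ∧ (k : ℝ) ≤ mulHeight₁ y ^ 2 ∧
    ∀ v : HeightOneSpectrum (𝓞 K), |(adv K v).v y| ≤ (adv K v).v (k : K) := by
  obtain ⟨k₁, h1, h2, h3⟩ := NumberField.exists_nat_le_mulHeight₁ y
  obtain ⟨k₂, h4, h5, h6⟩ := NumberField.exists_nat_le_mulHeight₁ y⁻¹
  rw [mulHeight₁_inv] at h5
  have hk1 : (k₁ : K) ≠ 0 := Nat.cast_ne_zero.2 h1
  have hk2 : (k₂ : K) ≠ 0 := Nat.cast_ne_zero.2 h4
  refine ⟨k₁ * k₂, Nat.mul_ne_zero h1 h4, ?_, fun v => ?_⟩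
  · push_cast
    rw [sq]
    exact mul_le_mul h2 h5 (Nat.cast_nonneg _) (mulHeight₁_nonneg _)
  · have key : ∀ z : K, z ≠ 0 → IsIntegral ℤ z → 0 ≤ (adv K v).v z := by
      intro z hz hi
      have h := adv_nonneg (K := K) v (⟨z, hi⟩ : 𝓞 K) (by
        intro h0
        apply hz
        have := congrArg (algebraMap (𝓞 K) K) h0
        rw [map_zero] at this
        exact this)
      exact h
    have a1 := key _ (mul_ne_zero hk1 hy) h3
    have a2 := key _ (mul_ne_zero hk2 (inv_ne_zero hy)) h6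
    rw [(adv K v).mul' _ _ hk1 hy] at a1
    rw [(adv K v).mul' _ _ hk2 (inv_ne_zero hy)] at a2
    have a3 : (adv K v).v y⁻¹ = -(adv K v).v y := ((E_of_ne (w := adv K v) hy).inv).2
    rw [a3] at a2
    have a4 := val_nat_nonneg v k₁ h1
    have a5 := val_nat_nonneg v k₂ h4
    rw [Nat.cast_mul, (adv K v).mul' _ _ hk1 hk2, abs_le]
    constructor <;> omega

/-- the linear form which vanishes at `c` -/
def lin (c : Option K) (t : K) : K := c.elim 1 fun γ => t - γ

/-- height of a point of the projective line -/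
noncomputable def hp (c : Option K) : ℝ := c.elim 1 fun γ => mulHeight₁ γ

/-- close to the point `a` -/
def NearT (φ : K →+* ℂ) (M : ℕ) (t : K) : Option K → Prop
  | none => mulHeight₁ t ≤ ‖φ t‖ ^ M
  | some a => mulHeight₁ t * ‖φ t - φ a‖ ^ M ≤ 1

/-- the condition for the positive valuations at the finite point `b` -/
def PosV (S : Set (HeightOneSpectrum (𝓞 K))) (n m N e : ℕ) (b t : K) : Prop :=
  ∀ v ∉ S, (adv K v).v (N : K) = 0 → 0 < (adv K v).v (t - b) →
    ∃ r : ℤ, |r| ≤ (adv K v).v (m : K) ∧ (n : ℤ) ∣ (e : ℤ) * (adv K v).v (t - b) + r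

/-- the condition at infinity -/
def PosI (S : Set (HeightOneSpectrum (𝓞 K))) (n m N e : ℕ) (t : K) : Prop :=
  ∀ v ∉ S, (adv K v).v (N : K) = 0 → (adv K v).v t < 0 →
    ∃ r : ℤ, |r| ≤ (adv K v).v (m : K) ∧ (n : ℤ) ∣ (e : ℤ) * -(adv K v).v t + r

/-- the condition at any point -/
def PosP (S : Set (HeightOneSpectrum (𝓞 K))) (n m N e : ℕ) (c : Option K) (t : K) : Prop :=
  c.elim (PosI S n m N e t) fun γ => PosV S n m N e γ t

/-- the valuations of `(t - b) / (t - c)` -/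
lemma ratio_val (b : K) (c : Option K) (hbc : c ≠ some b) :
    ∃ S₁ : Set (HeightOneSpectrum (𝓞 K)), S₁.Finite ∧ ∀ (S : Set (HeightOneSpectrum (𝓞 K)))
      (n m N e : ℕ), m ≠ 0 → ∀ t : K, t ≠ b → some t ≠ c → PosV S n m N e b t → PosP S n m N e c t →
      ∀ v ∉ S, v ∉ S₁ → (adv K v).v (N : K) = 0 →
        ∃ r : ℤ, |r| ≤ (adv K v).v (m : K) ∧
          (n : ℤ) ∣ (e : ℤ) * ((adv K v).v ((t - b) / lin c t)) + r := by
  rcases c with _ | γ
  · refine ⟨{v | ¬ (adv K v).G 0 b}, pole_finite b, ?_⟩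
    intro S n m N e hm t htb _ h1 h2 v hvS hv hN
    simp only [Set.mem_ofPred_eq, not_not] at hv
    have e0 : (t - b) / lin none t = t - b := by
      show (t - b) / 1 = t - b
      rw [div_one]
    rw [e0]
    have hm0 := val_nat_nonneg v m hm
    rcases lt_trichotomy ((adv K v).v (t - b)) 0 with h | h | h
    · have ht : (adv K v).E ((adv K v).v (t - b)) t := by
        have k1 := (E_of_ne (w := adv K v) (sub_ne_zero.2 htb)).addG hv h
        rwa [sub_add_cancel] at k1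
      obtain ⟨r, hr1, hr2⟩ := h2 v hvS hN (by rw [ht.2]; exact h)
      rw [ht.2] at hr2
      refine ⟨-r, by rwa [abs_neg], ?_⟩
      rw [← dvd_neg]
      have : -((e : ℤ) * (adv K v).v (t - b) + -r) = (e : ℤ) * -(adv K v).v (t - b) + r := by ring
      rwa [this]
    · refine ⟨0, by rw [abs_zero]; exact hm0, ?_⟩
      rw [h, mul_zero, add_zero]
      exact dvd_zero _
    · exact h1 v hvS hN h
  · have hγ : b ≠ γ := fun h => hbc (by rw [h])
    refine ⟨{v | (adv K v).v (b - γ) ≠ 0}, supp_finite (sub_ne_zero.2 hγ), ?_⟩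
    intro S n m N e hm t htb htγ' h1 h2 v hvS hv hN
    simp only [Set.mem_ofPred_eq, not_not] at hv
    have htγ : t ≠ γ := fun h => htγ' (by rw [h])
    have hm0 := val_nat_nonneg v m hm
    have hx0 : t - b ≠ 0 := sub_ne_zero.2 htb
    have hy0 : t - γ ≠ 0 := sub_ne_zero.2 htγ
    have hdiff : (adv K v).E 0 ((t - b) - (t - γ)) := by
      have k1 : (t - b) - (t - γ) = -(b - γ) := by ring
      rw [k1]
      have k2 : (adv K v).E 0 (b - γ) := ⟨sub_ne_zero.2 hγ, hv⟩
      exact k2.neg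
    have e0 : (adv K v).v ((t - b) / lin (some γ) t) =
        (adv K v).v (t - b) - (adv K v).v (t - γ) :=
      ((E_of_ne (w := adv K v) hx0).div (E_of_ne (w := adv K v) hy0)).2
    rw [e0]
    rcases two_vals v hx0 hy0 hdiff with ⟨h, h'⟩ | ⟨h, h'⟩ | h
    · obtain ⟨r, hr1, hr2⟩ := h1 v hvS hN h
      refine ⟨r, hr1, ?_⟩
      rwa [h', sub_zero]
    · obtain ⟨r, hr1, hr2⟩ := h2 v hvS hN h
      refine ⟨-r, by rwa [abs_neg], ?_⟩
      rw [h', ← dvd_neg]
      have : -((e : ℤ) * (0 - (adv K v).v (t - γ)) + -r) = (e : ℤ) * (adv K v).v (t - γ) + r := by ring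
      rwa [this]
    · refine ⟨0, by rw [abs_zero]; exact hm0, ?_⟩
      rw [h, sub_self, mul_zero, add_zero]
      exact dvd_zero _

/-- lower bounds for absolute values -/
lemma norm_ge_height (φ : K →+* ℂ) {y : K} (hy : y ≠ 0) : (mulHeight₁ y)⁻¹ ≤ ‖φ y‖ := by
  have h1 := norm_le_height φ y⁻¹
  rw [mulHeight₁_inv, map_inv₀, norm_inv] at h1
  have h2 : 0 < ‖φ y‖ := norm_pos_iff.2 ((map_ne_zero φ).2 hy)
  have h3 : 0 < mulHeight₁ y := lt_of_lt_of_le one_pos (one_le_mulHeight₁ _)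
  rw [inv_le_comm₀ h3 h2]
  exact h1

lemma lin_height (c : Option K) : ∃ k : ℕ, ∀ t : K, mulHeight₁ (lin c t) ≤ 2 ^ k * mulHeight₁ t := by
  rcases c with _ | γ
  · refine ⟨0, fun t => ?_⟩
    show mulHeight₁ (1 : K) ≤ _
    rw [mulHeight₁_one, pow_zero, one_mul]
    exact one_le_mulHeight₁ _
  · obtain ⟨k, hk⟩ := exists_two_pow ((2 : ℝ) ^ totalWeight K * mulHeight₁ γ)
    refine ⟨k, fun t => ?_⟩
    show mulHeight₁ (t - γ) ≤ _
    calc mulHeight₁ (t - γ) ≤ 2 ^ totalWeight K * mulHeight₁ t * mulHeight₁ γ := mulHeight₁_sub_le _ _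
      _ = (2 ^ totalWeight K * mulHeight₁ γ) * mulHeight₁ t := by ring
      _ ≤ _ := mul_le_mul_of_nonneg_right hk (mulHeight₁_nonneg _)

lemma two_pow_div (X M : ℕ) {y : ℝ} (hM : 1 ≤ M) (hy : 0 ≤ y) {L : ℕ} (hL : X * M ≤ L)
    (h : (2 : ℝ) ^ L * y ^ M ≤ 1) : y ≤ 1 / 2 ^ X := by
  rw [le_div_iff₀ (by positivity)]
  have h1 : (y * 2 ^ X) ^ M ≤ 1 := by
    rw [mul_pow, ← pow_mul, mul_comm]
    refine le_trans (mul_le_mul_of_nonneg_right ?_ (pow_nonneg hy _)) h
    exact pow_le_pow_right₀ (by norm_num) hL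
  exact (pow_le_one_iff_of_nonneg (by positivity) (by omega)).1 h1

lemma two_pow_le_of (X M : ℕ) {y : ℝ} (hM : 1 ≤ M) (hy : 0 ≤ y) {L : ℕ} (hL : X * M ≤ L)
    (h : (2 : ℝ) ^ L ≤ y ^ M) : 2 ^ X ≤ y := by
  have h1 : ((2 : ℝ) ^ X) ^ M ≤ y ^ M := by
    rw [← pow_mul]
    exact (pow_le_pow_right₀ (by norm_num) hL).trans h
  exact (pow_le_pow_iff_left₀ (by positivity) hy (by omega)).1 h1

/-- **closeness of the cross ratio to `1`** -/
lemma cross_close (b : K) (c : Option K) (hbc : c ≠ some b) (M : ℕ) (hM : 1 ≤ M) :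
    ∃ k : ℕ, ∀ (g : ℕ) (t : K) (a : Option K) (φ : K →+* ℂ) (L X : ℕ), a ≠ some b → a ≠ c →
      hp a ≤ 2 ^ g → NearT φ M t a → 2 ^ L ≤ mulHeight₁ t → X * M ≤ L → k * (g + 1) ≤ X →
      ∃ α : K, α ≠ 0 ∧ mulHeight₁ α ≤ 2 ^ (k * (g + 1)) ∧ lin c t ≠ 0 ∧
        ‖φ ((t - b) / lin c t / α) - 1‖ ≤ 2 ^ (k * (g + 1)) / 2 ^ X := by
  obtain ⟨kb, hkb⟩ := lin_height (some b)
  obtain ⟨kc, hkc⟩ := lin_height c
  obtain ⟨kd, hkd⟩ := exists_two_pow (mulHeight₁ (lin c b) + hp c)
  have hd0 : lin c b ≠ 0 := by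
    rcases c with _ | γ
    · exact one_ne_zero
    · exact sub_ne_zero.2 fun h => hbc (by rw [h])
  have hpc : 0 ≤ hp c := by
    rcases c with _ | γ
    · exact zero_le_one
    · exact mulHeight₁_nonneg _
  have hdφ : ∀ φ : K →+* ℂ, ‖φ (lin c b)‖ ≤ 2 ^ kd := by
    intro φ
    have := norm_le_height φ (lin c b)
    linarith
  refine ⟨2 * (kb + kc + kd + 2), ?_⟩
  intro g t a φ L X hab hac hag hnear hL hXL hX
  obtain ⟨W, hW⟩ : ∃ W, W = (kb + kc + kd + 2) * (g + 1) := ⟨_, rfl⟩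
  have hW2 : 2 * (kb + kc + kd + 2) * (g + 1) = 2 * W := by rw [hW]; ring
  rw [hW2] at hX ⊢
  have hWg : kb + kc + kd + 2 + g ≤ W := by
    rw [hW]
    nlinarith [Nat.zero_le (kb * g), Nat.zero_le (kc * g), Nat.zero_le (kd * g)]
  have h2X : (2 : ℝ) ^ X = 2 ^ (X - W) * 2 ^ W := by rw [← pow_add]; congr 1; omega
  rcases a with _ | α
  · -- the target is at infinity
    rcases c with _ | γ
    · exact absurd rfl hac
    have hbig : (2 : ℝ) ^ X ≤ ‖φ t‖ :=
      two_pow_le_of X M hM (norm_nonneg _) hXL (hL.trans hnear)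
    have hγ : ‖φ γ‖ ≤ 2 ^ kd := by
      have h1 := norm_le_height φ γ
      have h2 : hp (some γ) = mulHeight₁ γ := rfl
      have h3 := mulHeight₁_nonneg (lin (some γ) b)
      linarith
    have hkX : (2 : ℝ) ^ (kd + 1) ≤ 2 ^ X := pow_le_pow_right₀ (by norm_num) (by omega)
    have hfar : (2 : ℝ) ^ X / 2 ≤ ‖φ (t - γ)‖ := by
      rw [map_sub]
      have h3 := norm_sub_norm_le (φ t) (φ γ)
      rw [pow_succ] at hkX
      linarith
    have htγ : t - γ ≠ 0 := by
      intro h0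
      rw [h0, map_zero, norm_zero] at hfar
      have : (0 : ℝ) < 2 ^ X := by positivity
      linarith
    refine ⟨1, one_ne_zero, ?_, htγ, ?_⟩
    · rw [mulHeight₁_one]
      exact one_le_pow₀ (by norm_num)
    · have e1 : (t - b) / lin (some γ) t / 1 - 1 = -(lin (some γ) b) / (t - γ) := by
        show (t - b) / (t - γ) / 1 - 1 = -(b - γ) / (t - γ)
        field_simp
        ring
      have e2 : φ ((t - b) / lin (some γ) t / 1) - 1 = φ (-(lin (some γ) b) / (t - γ)) := by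
        rw [← e1, map_sub, map_one]
      rw [e2, map_div₀, norm_div, map_neg, norm_neg]
      calc ‖φ (lin (some γ) b)‖ / ‖φ (t - γ)‖ ≤ 2 ^ kd / (2 ^ X / 2) :=
            div_le_div₀ (by positivity) (hdφ φ) (by positivity) hfar
        _ = 2 ^ (kd + 1) / 2 ^ X := by rw [pow_succ]; field_simp
        _ ≤ _ := by
            apply div_le_div_of_nonneg_right _ (by positivity)
            exact pow_le_pow_right₀ (by norm_num) (by omega)
  · -- a finite target
    have hαb : α - b ≠ 0 := sub_ne_zero.2 fun h => hab (by rw [h])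
    have hαc : lin c α ≠ 0 := by
      rcases c with _ | γ
      · exact one_ne_zero
      · exact sub_ne_zero.2 fun h => hac (by rw [h])
    have hsmall : ‖φ (t - α)‖ ≤ 1 / 2 ^ X := by
      apply two_pow_div X M hM (norm_nonneg _) hXL
      rw [map_sub]
      exact (mul_le_mul_of_nonneg_right hL (pow_nonneg (norm_nonneg _) _)).trans hnear
    have hαg : mulHeight₁ α ≤ 2 ^ g := hag
    have hH1 : mulHeight₁ (α - b) ≤ 2 ^ (kb + g) := by
      calc mulHeight₁ (α - b) ≤ 2 ^ kb * mulHeight₁ α := hkb α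
        _ ≤ 2 ^ kb * 2 ^ g := mul_le_mul_of_nonneg_left hαg (by positivity)
        _ = _ := by rw [← pow_add]
    have hH2 : mulHeight₁ (lin c α) ≤ 2 ^ (kc + g) := by
      calc mulHeight₁ (lin c α) ≤ 2 ^ kc * mulHeight₁ α := hkc α
        _ ≤ 2 ^ kc * 2 ^ g := mul_le_mul_of_nonneg_left hαg (by positivity)
        _ = _ := by rw [← pow_add]
    have hlow : ∀ (y : K) (i : ℕ), y ≠ 0 → mulHeight₁ y ≤ 2 ^ i → 1 / 2 ^ i ≤ ‖φ y‖ := by
      intro y i hy hyi
      refine le_trans ?_ (norm_ge_height φ hy)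
      rw [one_div]
      exact inv_anti₀ (lt_of_lt_of_le one_pos (one_le_mulHeight₁ _)) hyi
    have hl1 := hlow _ _ hαb hH1
    have hl2 := hlow _ _ hαc hH2
    -- `lin c t`
    have hlt : 1 / 2 ^ (kc + g + 1) ≤ ‖φ (lin c t)‖ := by
      have e1 : (1 : ℝ) / 2 ^ (kc + g + 1) = 1 / 2 ^ (kc + g) / 2 := by rw [pow_succ]; field_simp
      have e2 : (1 : ℝ) / 2 ^ X ≤ 1 / 2 ^ (kc + g + 1) := by
        apply one_div_le_one_div_of_le (by positivity)
        exact pow_le_pow_right₀ (by norm_num) (by omega)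
      rcases c with _ | γ
      · show _ ≤ ‖φ (1 : K)‖
        rw [map_one, norm_one, div_le_one (by positivity)]
        exact one_le_pow₀ (by norm_num)
      · have e3 : φ (lin (some γ) α) = φ (lin (some γ) t) - φ (t - α) := by
          rw [← map_sub]
          congr 1
          show α - γ = (t - γ) - (t - α)
          ring
        have e4 : ‖φ (lin (some γ) α)‖ ≤ ‖φ (lin (some γ) t)‖ + ‖φ (t - α)‖ := by
          rw [e3]
          exact norm_sub_le _ _
        rw [e1] at e2 ⊢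
        linarith
    have hlt0 : lin c t ≠ 0 := by
      intro h0
      rw [h0, map_zero, norm_zero] at hlt
      have : (0 : ℝ) < 1 / 2 ^ (kc + g + 1) := by positivity
      linarith
    refine ⟨(α - b) / lin c α, div_ne_zero hαb hαc, ?_, hlt0, ?_⟩
    · calc mulHeight₁ ((α - b) / lin c α) = mulHeight₁ ((α - b) * (lin c α)⁻¹) := by rw [div_eq_mul_inv]
        _ ≤ mulHeight₁ (α - b) * mulHeight₁ (lin c α)⁻¹ := mulHeight₁_mul_le _ _
        _ = mulHeight₁ (α - b) * mulHeight₁ (lin c α) := by rw [mulHeight₁_inv]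
        _ ≤ 2 ^ (kb + g) * 2 ^ (kc + g) := mul_le_mul hH1 hH2 (mulHeight₁_nonneg _) (by positivity)
        _ = 2 ^ (kb + g + (kc + g)) := by rw [← pow_add]
        _ ≤ _ := pow_le_pow_right₀ (by norm_num) (by omega)
    · have e1 : (t - b) / lin c t / ((α - b) / lin c α) - 1 =
          (t - α) * lin c b / ((α - b) * lin c t) := by
        rcases c with _ | γ
        · show (t - b) / 1 / ((α - b) / 1) - 1 = (t - α) * 1 / ((α - b) * 1)
          field_simp
          ring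
        · have h1 : t - γ ≠ 0 := hlt0
          have h2 : α - γ ≠ 0 := hαc
          show (t - b) / (t - γ) / ((α - b) / (α - γ)) - 1 = (t - α) * (b - γ) / ((α - b) * (t - γ))
          field_simp
          ring
      have e2 : φ ((t - b) / lin c t / ((α - b) / lin c α)) - 1 =
          φ (t - α) * φ (lin c b) / (φ (α - b) * φ (lin c t)) := by
        rw [← map_mul, ← map_mul, ← map_div₀, ← e1, map_sub, map_one]
      rw [e2, norm_div, norm_mul, norm_mul]
      calc ‖φ (t - α)‖ * ‖φ (lin c b)‖ / (‖φ (α - b)‖ * ‖φ (lin c t)‖)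
          ≤ (1 / 2 ^ X * 2 ^ kd) / ((1 / 2 ^ (kb + g)) * (1 / 2 ^ (kc + g + 1))) := by
            apply div_le_div₀ (by positivity)
            · exact mul_le_mul hsmall (hdφ φ) (norm_nonneg _) (by positivity)
            · positivity
            · exact mul_le_mul hl1 hlt (by positivity) (norm_nonneg _)
        _ = 2 ^ (kd + (kb + g) + (kc + g + 1)) / 2 ^ X := by
            rw [pow_add (2 : ℝ) (kd + (kb + g)) (kc + g + 1), pow_add (2 : ℝ) kd (kb + g)]
            field_simp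
        _ ≤ _ := by
            apply div_le_div_of_nonneg_right _ (by positivity)
            exact pow_le_pow_right₀ (by norm_num) (by omega)

end Run7.h197.V
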